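import Pool.Agent.Lib.MP_65ccf5_lc.Defs

/-!
The recognition problem for graphs without a clique on `k` vertices, and the class `Π₂ᵖ`.
-/

set_option autoImplicit false

namespace Pool.Agent.Lib.MP_65ccf5_lc

open Classical in
/-- Codes of adjacency matrices of strongly `2`-divisible graphs without a clique on `k`
vertices. -/
noncomputable def SDfree (k : ℕ) : N68a2faeb.DecisionProblem := fun s =>
  decide (∃ (n : ℕ) (G : SimpleGraph (Fin n)),
    s = N487b59b3.bitEncode (List.ofFn fun i => List.ofFn fun j => decide (G.Adj i j)) ∧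
      G.CliqueFree k ∧ StronglyDivisible 2 G)

/-- The class `Π₂ᵖ` of the polynomial hierarchy. -/
def Pi2 : N68a2faeb.DecisionComplexityClass :=
  { L | ∃ (p : Polynomial ℕ) (R : List Bool × List Bool × List Bool → Bool),
      N68a2faeb.IsPolyTime R ∧
      ∀ x, L x ↔ ∀ a : List Bool, a.length ≤ p.eval x.length →
        ∃ b : List Bool, b.length ≤ p.eval x.length ∧ R (x, a, b) }

end Pool.Agent.Lib.MP_65ccf5_lc
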