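import Pool.Agent.Lib.MP_65ccf5_lc.Basic
import Pool.Agent.Lib.Common.CookLevin.Cnf

/-!
A four-partite core graph and its clique colourings.
-/

set_option autoImplicit false

namespace Pool.Agent.Lib.MP_65ccf5_lc.Bd

open Pool.Agent.Lib.Common.CookLevin

/-- Vertices of the core graph. -/
inductive Wx : Type
  | s : Wx
  | bt : Wx
  | d : Wx
  | n : ℕ → Wx
  | u : ℕ → List (Var × Bool) → Wx
  | r : ℕ → List (Var × Bool) → Wx
  | t : List (Var × Bool) → Bool → Wx
  | l : Var → Bool → Wx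
  | g : Var × Bool → List (Var × Bool) → Wx

open Wx

/-- The four stable classes. -/
def cls : Wx → ℕ
  | s => 0
  | bt => 3
  | d => 2
  | n _ => 2
  | u _ _ => 1
  | r _ _ => 3
  | t _ b => cond b 1 2
  | l _ b => cond b 1 2
  | g _ _ => 3

/-- The allowed neighbours. -/
def ok : Wx → Wx → Prop
  | r k C, v => v = s ∨ v = u k C ∨ v = n 0 ∨ v = t C false
  | g x D, v => v = s ∨ (∃ C, v = u 0 C) ∨ v = d ∨ v = t D true ∨ v = t (x :: D) false ∨
      v = l x.1 (!x.2)
  | _, _ => True

/-- The sparse vertices. -/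
def sp : Wx → Bool
  | r _ _ => true
  | g _ _ => true
  | _ => false

/-- The core graph. -/
def core : SimpleGraph Wx where
  Adj a b := cls a ≠ cls b ∧ ok a b ∧ ok b a
  symm := ⟨fun _ _ h => ⟨h.1.symm, h.2.2, h.2.1⟩⟩
  loopless := ⟨fun _ h => h.1 rfl⟩

/-- The links, listed in one direction. -/
def Lk0 (L : ℕ) : Wx → Wx → Prop
  | n k, u j _ => k = j ∨ k = j + 1
  | n k, bt => k = L
  | bt, s => True
  | s, d => True
  | d, t D b => D = [] ∧ b = true
  | t D b, t D' b' => D = D' ∧ b = true ∧ b' = false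
  | l x b, l x' b' => x = x' ∧ b = true ∧ b' = false
  | r _ C, t D b => C = D ∧ b = false
  | g x _, l y b => y = x.1 ∧ b = !x.2
  | _, _ => False

/-- The links. -/
def Lk (L : ℕ) (a b : Wx) : Prop := Lk0 L a b ∨ Lk0 L b a

open Classical in
/-- The colouring attached to an assignment. -/
noncomputable def colA (z : Var → Bool) : Wx → Bool
  | s => false
  | bt => true
  | d => true
  | n _ => false
  | u _ _ => true
  | r _ C => decide (Sat z C)
  | t D b => decide (Sat z D) == b
  | l x b => z x == b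
  | g x _ => z x.1 == x.2

variable {L : ℕ} {W K : Set Wx}

theorem lk_of_lk0 {c : Wx → Bool}
    (h : ∀ a ∈ W, ∀ b ∈ W, Lk0 L a b → c a ≠ c b) : ∀ a ∈ W, ∀ b ∈ W, Lk L a b → c a ≠ c b := by
  rintro a ha b hb (h' | h')
  · exact h a ha b hb h'
  · exact (h b hb a ha h').symm

theorem colA_lk0 (z : Var → Bool) (a b : Wx) (h : Lk0 L a b) : colA z a ≠ colA z b := by
  cases a <;> cases b <;> simp only [Lk0] at h <;> simp_all [colA]
  rename_i x _ _ _
  cases z x.1 <;> cases x.2 <;> simp

theorem colA_lk (z : Var → Bool) (a b : Wx) (h : Lk L a b) : colA z a ≠ colA z b :=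
  lk_of_lk0 (W := Set.univ) (fun a _ b _ => colA_lk0 z a b) a trivial b trivial h

theorem lk0_cls (a b : Wx) (h : Lk0 L a b) : cls a ≠ cls b := by
  cases a <;> cases b <;> simp only [Lk0] at h <;> simp_all [cls]
  rename_i x _ _ _
  cases x.2 <;> simp

theorem cls_lt (a : Wx) : cls a < 4 := by
  cases a <;> simp only [cls] <;> first | omega | (rename_i b; cases b <;> simp)

theorem ok_of {a : Wx} (h : sp a = false) (v : Wx) : ok a v := by
  cases a <;> simp_all [sp, ok]

theorem cls_sp {a : Wx} (h : sp a = true) : cls a = 3 := by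
  cases a <;> simp_all [sp, cls]

theorem sp_of {a : Wx} (h : cls a ≠ 3) : sp a = false := by
  cases h' : sp a
  · rfl
  · exact absurd (cls_sp h') h

theorem eq_s {a : Wx} (h : cls a = 0) : a = s := by
  cases a <;> simp only [cls] at h <;> first | rfl | omega | (rename_i b; cases b <;> simp at h)

theorem eq_bt {a : Wx} (h : cls a = 3) (h' : sp a = false) : a = bt := by
  cases a <;> simp only [cls, sp] at h h' <;>
    first | rfl | omega | (rename_i b; cases b <;> simp at h; done) | (exact absurd h' (by simp))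

theorem ok_s (a : Wx) : ok a s := by
  cases a <;> simp [ok]

theorem mem_sp (hK : MC core W K) {a v : Wx} (ha : a ∈ K) (hs : sp a = true) (hv : v ∈ W)
    (hok : ok a v) (h3 : cls v ≠ 3) : ∃ x ∈ K, cls x = cls v ∧ ok a x := by
  rcases hK.mem_or hv with h | ⟨x, hx, h1, h2⟩
  · exact ⟨v, h, rfl, hok⟩
  · have e := cls_sp hs
    by_cases hxa : x = a
    · subst hxa
      exact absurd ⟨by omega, hok, ok_of (sp_of h3) _⟩ h2
    · have h4 := hK.clq ha hx (Ne.symm hxa)
      refine ⟨x, hx, ?_, h4.2.1⟩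
      by_contra h5
      exact h2 ⟨h5, ok_of (sp_of (fun h6 => h4.1 (e.trans h6.symm))) _, ok_of (sp_of h3) _⟩

theorem mem_ns (hK : MC core W K) (h : ∀ x ∈ K, sp x = false) {v : Wx} (hv : v ∈ W)
    (hs : sp v = false) : ∃ x ∈ K, cls x = cls v := by
  rcases hK.mem_or hv with h' | ⟨x, hx, -, h2⟩
  · exact ⟨v, h', rfl⟩
  · refine ⟨x, hx, ?_⟩
    by_contra h5
    exact h2 ⟨h5, ok_of (h x hx) _, ok_of hs _⟩

theorem mem_s (hK : MC core W K) (h : s ∈ W) : s ∈ K :=
  hK.mx s h (fun v _ hv => ⟨fun e => hv (eq_s e), ok_s v, trivial⟩)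

theorem mem_bt (hK : MC core W K) (h : ∀ x ∈ K, sp x = false) (hb : bt ∈ W) : bt ∈ K := by
  obtain ⟨x, hx, e⟩ := mem_ns hK h hb rfl
  exact eq_bt e (h x hx) ▸ hx

theorem col_legit (hs : s ∈ W) (hb : bt ∈ W) (hd : d ∈ W) {C₀ : Clause} (hu : u 0 C₀ ∈ W)
    {z : Var → Bool} (hz : ∀ k C, r k C ∈ W → u k C ∉ W → Sat z C) : Col core W (colA z) := by
  classical
  refine col_of (fun K hK _ => ⟨⟨s, mem_s hK hs, rfl⟩, ?_⟩)
  by_cases h : ∀ x ∈ K, sp x = false
  · exact ⟨bt, mem_bt hK h hb, rfl⟩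
  push Not at h
  obtain ⟨a, ha, hsp⟩ := h
  cases a <;> simp only [sp, ne_eq, not_true_eq_false] at hsp
  · rename_i k C
    by_cases h1 : u k C ∈ W
    · obtain ⟨x, hx, e, h2⟩ := mem_sp hK ha rfl h1 (by simp [ok]) (by simp [cls])
      refine ⟨x, hx, ?_⟩
      rcases h2 with rfl | rfl | rfl | rfl <;> simp [cls] at e
      rfl
    · exact ⟨_, ha, by simpa [colA] using hz k C (hK.sub ha) h1⟩
  · rename_i x D
    by_cases h1 : z x.1 = x.2
    · exact ⟨_, ha, by simpa [colA] using h1⟩
    have h2 : colA z (l x.1 (!x.2)) = true := by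
      revert h1
      simp only [colA]
      cases z x.1 <;> cases x.2 <;> simp
    by_cases h3 : Sat z D
    · obtain ⟨y, hy, e, h4⟩ := mem_sp hK ha rfl hu (by simp [ok]) (by simp [cls])
      refine ⟨y, hy, ?_⟩
      rcases h4 with rfl | ⟨C, rfl⟩ | rfl | rfl | rfl | rfl
      · simp [cls] at e
      · rfl
      · rfl
      · simp [colA, h3]
      · simp [cls] at e
      · exact h2
    · obtain ⟨y, hy, e, h4⟩ := mem_sp hK ha rfl hd (by simp [ok]) (by simp [cls])
      refine ⟨y, hy, ?_⟩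
      rcases h4 with rfl | ⟨C, rfl⟩ | rfl | rfl | rfl | rfl
      · simp [cls] at e
      · rfl
      · rfl
      · simp [cls] at e
      · simp [colA, h3, h1]
      · exact h2

/-- Colours of the vertices that are not sparse, when the chain is broken. -/
def bc (σ τ : Bool) (w : ℕ → Bool) : Wx → Bool
  | s => σ
  | bt => τ
  | n k => w k
  | u k _ => !w k
  | t _ b => b
  | l _ b => b
  | _ => false

/-- The vertex linked to a sparse vertex. -/
def zz : Wx → Wx
  | r _ C => t C false
  | g x _ => l x.1 (!x.2)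
  | _ => s

open Classical in
/-- The colouring attached to a break of the chain. -/
noncomputable def colB (W : Set Wx) (σ τ : Bool) (w : ℕ → Bool) (a : Wx) : Bool :=
  if sp a = true then
    (if zz a ∈ W then !bc σ τ w (zz a) else
      if ∃ v ∈ W, ok a v ∧ cls v = 2 then true else
        if ∃ v ∈ W, ok a v ∧ cls v = 1 then false else !σ)
  else bc σ τ w a

variable {σ τ : Bool} {w : ℕ → Bool}

theorem colB_ns {a : Wx} (h : sp a = false) : colB W σ τ w a = bc σ τ w a := by
  simp [colB, h]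

theorem zz_spec {a : Wx} (h : sp a = true) : ok a (zz a) ∧
    ((cls (zz a) = 1 ∧ bc σ τ w (zz a) = true) ∨ (cls (zz a) = 2 ∧ bc σ τ w (zz a) = false)) := by
  cases a <;> simp only [sp, Bool.false_eq_true] at h
  · simp [ok, zz, cls, bc]
  · rename_i x _
    cases h : x.2 <;> simp [ok, zz, cls, bc, h]

theorem bc_two (h0 : w 0 = false) {a v : Wx} (h : sp a = true) (hok : ok a v) (h2 : cls v = 2) :
    bc σ τ w v = false := by
  cases a <;> simp only [sp, Bool.false_eq_true] at h
  · rcases hok with rfl | rfl | rfl | rfl <;> simp_all [cls, bc]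
  · rename_i x _
    rcases hok with rfl | ⟨C, rfl⟩ | rfl | rfl | rfl | rfl <;> simp_all [cls, bc]
    cases h : x.2 <;> simp_all

theorem bc_one {v : Wx} (h1 : cls v = 1) :
    bc σ τ w v = true ∨ (bc σ τ w v = false ∧ ∃ k, w k = true) := by
  cases v <;> simp only [cls] at h1 <;> try omega
  · rename_i k _
    cases h : w k
    · simp [bc, h]
    · exact Or.inr ⟨by simp [bc, h], k, h⟩
  · rename_i b; cases b <;> simp_all [bc]
  · rename_i b; cases b <;> simp_all [bc]

theorem col_break (h0 : w 0 = false) (hw : ∀ k, w k = true → s ∈ W ∧ σ = true)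
    (hK0 : ∀ K, MC core W K → K.Nontrivial → (∀ x ∈ K, sp x = false) →
      ∃ a ∈ K, ∃ b ∈ K, bc σ τ w a ≠ bc σ τ w b) : Col core W (colB W σ τ w) := by
  intro K hK hn
  by_cases h : ∀ x ∈ K, sp x = false
  · obtain ⟨a, ha, b, hb, hab⟩ := hK0 K hK hn h
    exact ⟨a, ha, b, hb, by rwa [colB_ns (h a ha), colB_ns (h b hb)]⟩
  push Not at h
  obtain ⟨a, ha, hsp⟩ := h
  have hsp : sp a = true := by simpa using hsp
  obtain ⟨hz1, hz2⟩ := zz_spec (σ := σ) (τ := τ) (w := w) hsp
  have hQ : (∃ v ∈ W, ok a v ∧ cls v = 2) → ∃ x ∈ K, colB W σ τ w x = false := by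
    rintro ⟨v, hv, h1, h2⟩
    obtain ⟨x, hx, e, h3⟩ := mem_sp hK ha hsp hv h1 (by omega)
    exact ⟨x, hx, by rw [colB_ns (sp_of (by omega)), bc_two h0 hsp h3 (e.trans h2)]⟩
  have hP : (∃ v ∈ W, ok a v ∧ cls v = 1) → ∃ x ∈ K, colB W σ τ w x = true := by
    rintro ⟨v, hv, h1, h2⟩
    obtain ⟨x, hx, e, -⟩ := mem_sp hK ha hsp hv h1 (by omega)
    rcases bc_one (σ := σ) (τ := τ) (w := w) (e.trans h2) with h3 | ⟨-, k, hk⟩
    · exact ⟨x, hx, by rw [colB_ns (sp_of (by omega)), h3]⟩
    · exact ⟨s, mem_s hK (hw k hk).1, by rw [colB_ns rfl]; exact (hw k hk).2⟩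
  have fin : (∃ x ∈ K, colB W σ τ w x = false) → (∃ x ∈ K, colB W σ τ w x = true) →
      ∃ x ∈ K, ∃ y ∈ K, colB W σ τ w x ≠ colB W σ τ w y := by
    rintro ⟨x, hx, e⟩ ⟨y, hy, e'⟩
    exact ⟨x, hx, y, hy, by simp [e, e']⟩
  by_cases h2 : ∃ v ∈ W, ok a v ∧ cls v = 2
  · by_cases h1 : ∃ v ∈ W, ok a v ∧ cls v = 1
    · exact fin (hQ h2) (hP h1)
    · refine fin (hQ h2) ⟨a, ha, ?_⟩
      by_cases h3 : zz a ∈ W
      · rcases hz2 with h4 | h4
        · exact absurd ⟨_, h3, hz1, h4.1⟩ h1
        · simp [colB, hsp, h3, h4.2]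
      · simp only [colB, hsp, h3, if_true, if_false, if_pos h2]
  · by_cases h1 : ∃ v ∈ W, ok a v ∧ cls v = 1
    · refine fin ⟨a, ha, ?_⟩ (hP h1)
      by_cases h3 : zz a ∈ W
      · rcases hz2 with h4 | h4
        · simp [colB, hsp, h3, h4.2]
        · exact absurd ⟨_, h3, hz1, h4.1⟩ h2
      · simp only [colB, hsp, h3, if_true, if_false, if_pos h1, if_neg h2]
    · have h3 : zz a ∉ W := fun h3 => by
        rcases hz2 with h4 | h4
        · exact h1 ⟨_, h3, hz1, h4.1⟩
        · exact h2 ⟨_, h3, hz1, h4.1⟩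
      obtain ⟨x, hx, hne⟩ := hn.exists_ne a
      have h4 := hK.clq ha hx hne.symm
      have h5 : cls x = 0 := by
        have a1 := cls_lt x
        have a2 := cls_sp hsp
        have a3 := h4.1
        have a4 : cls x ≠ 1 := fun e => h1 ⟨x, hK.sub hx, h4.2.1, e⟩
        have a5 : cls x ≠ 2 := fun e => h2 ⟨x, hK.sub hx, h4.2.1, e⟩
        omega
      obtain rfl := eq_s h5
      refine ⟨a, ha, s, hx, ?_⟩
      rw [colB_ns (a := s) rfl]
      simp only [colB, hsp, h3, if_true, if_false, if_neg h1, if_neg h2, bc]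
      cases σ <;> simp

theorem colB_lk (h1 : ∀ k C, u k C ∈ W → w k = w (k + 1)) (h2 : n L ∈ W → bt ∈ W → w L ≠ τ)
    (h3 : bt ∈ W → s ∈ W → τ ≠ σ) (h4 : s ∈ W → d ∈ W → σ = true) :
    ∀ a ∈ W, ∀ b ∈ W, Lk L a b → colB W σ τ w a ≠ colB W σ τ w b := by
  refine lk_of_lk0 (fun a ha b hb h => ?_)
  cases a <;> cases b <;> simp only [Lk0] at h
  case s.d => simp [colB, sp, bc, h4 ha hb]
  case bt.s => simpa [colB, sp, bc] using h3 ha hb
  case d.t => simp [colB, sp, bc, h.2]
  case n.bt => subst h; simpa [colB, sp, bc] using h2 ha hb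
  case n.u k j C =>
    have := h1 j C hb
    rcases h with rfl | rfl
    · simp [colB, sp, bc]
    · simp [colB, sp, bc, this]
  case r.t => obtain ⟨rfl, rfl⟩ := h; simp [colB, sp, bc, zz, hb]
  case t.t => simp [colB, sp, bc, h.2.1, h.2.2]
  case l.l => simp [colB, sp, bc, h.2.1, h.2.2]
  case g.l => obtain ⟨rfl, rfl⟩ := h; simp [colB, sp, bc, zz, hb]

theorem core_col (hL : 1 ≤ L) (W : Set Wx)
    (hq : (∀ k < L, ∃ C, u k C ∈ W) → ∃ z : Var → Bool, ∀ k C, r k C ∈ W → u k C ∉ W → Sat z C) :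
    ∃ c, Col core W c ∧ ∀ a ∈ W, ∀ b ∈ W, Lk L a b → c a ≠ c b := by
  classical
  by_cases hA : s ∈ W ∧ bt ∈ W
  · have hK0 : ∀ (σ τ : Bool) (w : ℕ → Bool), σ ≠ τ → ∀ K, MC core W K → K.Nontrivial →
        (∀ x ∈ K, sp x = false) → ∃ a ∈ K, ∃ b ∈ K, bc σ τ w a ≠ bc σ τ w b :=
      fun σ τ w h K hK _ h' => ⟨s, mem_s hK hA.1, bt, mem_bt hK h' hA.2, h⟩
    by_cases hd : d ∈ W
    · by_cases hu : ∀ k < L, ∃ C, u k C ∈ W
      · obtain ⟨z, hz⟩ := hq hu
        obtain ⟨C, hC⟩ := hu 0 hL
        exact ⟨_, col_legit hA.1 hA.2 hd hC hz, fun a _ b _ => colA_lk z a b⟩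
      · push Not at hu
        obtain ⟨k₀, hk, hk'⟩ := hu
        refine ⟨_, col_break (σ := true) (τ := false) (w := fun k => decide (k₀ < k)) (by simp)
          (fun _ _ => ⟨hA.1, rfl⟩) (hK0 _ _ _ (by simp)),
          colB_lk (fun k C h => ?_) (by simp [hk]) (by simp) (by simp)⟩
        have : k ≠ k₀ := by rintro rfl; exact hk' C h
        simp only [decide_eq_decide]
        omega
    · exact ⟨_, col_break (σ := false) (τ := true) (w := fun _ => false) rfl (by simp)
        (hK0 _ _ _ (by simp)), colB_lk (by simp) (by simp) (by simp) (fun _ h => absurd h hd)⟩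
  by_cases hQ : ∃ v ∈ W, cls v = 2
  · refine ⟨_, col_break (σ := true) (τ := true) (w := fun _ => false) rfl (by simp)
      (fun K hK hn h => ?_), colB_lk (by simp) (by simp) (fun a b => absurd ⟨b, a⟩ hA) (by simp)⟩
    obtain ⟨v, hv, e⟩ := hQ
    obtain ⟨x, hx, e'⟩ := mem_ns hK h hv (sp_of (by omega))
    obtain ⟨y, hy, hne⟩ := hn.exists_ne x
    have h1 := (hK.clq hx hy hne.symm).1
    have h2 := h y hy
    rw [e] at e'
    rw [e'] at h1
    refine ⟨x, hx, y, hy, ?_⟩
    have a1 : bc true true (fun _ => false) x = false := by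
      cases x <;> simp only [cls] at e' <;> first | rfl | omega | (rename_i b; cases b <;> simp_all [bc])
    have a2 : bc true true (fun _ => false) y = true := by
      cases y <;> simp only [cls, sp] at h1 h2 <;>
        first | rfl | omega | (rename_i b; cases b <;> simp_all [bc]; done) |
          (exact absurd h2 (by simp))
    simp [a1, a2]
  · push Not at hQ
    refine ⟨_, col_break (σ := false) (τ := false) (w := fun _ => false) rfl (by simp)
      (fun K hK hn h => ?_), colB_lk (by simp) (fun a => absurd rfl (hQ _ a))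
        (fun a b => absurd ⟨b, a⟩ hA) (fun _ a => absurd rfl (hQ _ a))⟩
    obtain ⟨x, hx, y, hy, hne⟩ := hn
    have key : ∀ v ∈ K, (cls v = 1 ∧ bc false false (fun _ => false) v = true) ∨
        ((v = s ∨ v = bt) ∧ bc false false (fun _ => false) v = false) := by
      intro v hv
      have a1 := cls_lt v
      have a2 := hQ v (hK.sub hv)
      by_cases a3 : cls v = 1
      · exact Or.inl ⟨a3, by simpa using bc_one (σ := false) (τ := false) (w := fun _ => false) a3⟩
      · by_cases a4 : cls v = 0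
        · obtain rfl := eq_s a4
          exact Or.inr ⟨Or.inl rfl, rfl⟩
        · obtain rfl := eq_bt (a := v) (by omega) (h v hv)
          exact Or.inr ⟨Or.inr rfl, rfl⟩
    have h1 := (hK.clq hx hy hne).1
    refine ⟨x, hx, y, hy, ?_⟩
    rcases key x hx with a | a <;> rcases key y hy with b | b
    · omega
    · simp [a.2, b.2]
    · simp [a.2, b.2]
    · rcases a.1 with rfl | rfl <;> rcases b.1 with rfl | rfl
      · exact absurd rfl hne
      · exact absurd ⟨hK.sub hx, hK.sub hy⟩ hA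
      · exact absurd ⟨hK.sub hy, hK.sub hx⟩ hA
      · exact absurd rfl hne

theorem core_not_col (hs : s ∈ W) (hb : bt ∈ W) (hd : d ∈ W) (hn : ∀ k ≤ L, n k ∈ W)
    (hu : ∀ k < L, ∃ C, u k C ∈ W) (he : t [] true ∈ W)
    (ht : ∀ x D, t (x :: D) false ∈ W →
      g x D ∈ W ∧ t D true ∈ W ∧ t D false ∈ W ∧ ∀ b, l x.1 b ∈ W)
    (hr : ∀ k C, r k C ∈ W → t C false ∈ W) {c : Wx → Bool} (hc : Col core W c)
    (hl : ∀ a ∈ W, ∀ b ∈ W, Lk0 L a b → c a ≠ c b) :
    ∃ z : Var → Bool, ∀ k C, r k C ∈ W → u k C ∉ W → Sat z C := by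
  have flip : ∀ {a b e : Bool}, a ≠ b → b ≠ e → a = e := by decide
  have h1 : c (t [] true) = c s :=
    flip (hl _ hd _ he ⟨rfl, rfl⟩).symm (hl _ hs _ hd trivial).symm
  have h2 : ∀ j k, k + j = L → c (n k) = c s := by
    intro j
    induction j with
    | zero =>
      intro k hk
      exact flip (hl _ (hn k (by omega)) _ hb hk) (hl _ hb _ hs trivial)
    | succ j ih =>
      intro k hk
      obtain ⟨C, hC⟩ := hu k (by omega)
      rw [← ih (k + 1) (by omega)]
      exact flip (hl _ (hn k (by omega)) _ hC (Or.inl rfl))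
        (hl _ (hn (k + 1) (by omega)) _ hC (Or.inr rfl)).symm
  have h3 : c (n 0) = c s := h2 L 0 (by omega)
  refine ⟨fun x => decide (c (l x true) ≠ c s), ?_⟩
  have key : ∀ D, t D false ∈ W → c (t D false) = c s →
      Sat (fun x => decide (c (l x true) ≠ c s)) D := by
    intro D
    induction D with
    | nil => exact fun h e => absurd (h1.trans e.symm) (hl _ he _ h ⟨rfl, rfl, rfl⟩)
    | cons x D ih =>
      intro h e
      obtain ⟨a1, a2, a3, a4⟩ := ht x D h
      rw [sat_cons]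
      by_cases b1 : c (t D true) = c s
      swap
      · exact Or.inr (ih a3 (flip (hl _ a2 _ a3 ⟨rfl, rfl, rfl⟩).symm b1))
      left
      have b2 : c (g x D) ≠ c s := by
        intro b2
        obtain ⟨p, hp, q, hq, hpq⟩ := hc {s, g x D, t D true, t (x :: D) false} ⟨by
            rintro _ (rfl | rfl | rfl | rfl) <;> assumption, by
            rintro _ (rfl | rfl | rfl | rfl) _ (rfl | rfl | rfl | rfl) hne <;>
              first | exact absurd rfl hne | simp [core, cls, ok], by
            intro v _ hadj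
            by_contra hv
            simp only [Set.mem_insert_iff, Set.mem_singleton_iff, not_or] at hv
            have c0 := (hadj s (by simp) (Ne.symm hv.1)).1
            have c1 := (hadj (g x D) (by simp) (Ne.symm hv.2.1)).1
            have c2 := (hadj (t D true) (by simp) (Ne.symm hv.2.2.1)).1
            have c3 := (hadj (t (x :: D) false) (by simp) (Ne.symm hv.2.2.2)).1
            have c4 := cls_lt v
            change 0 ≠ cls v at c0
            change 3 ≠ cls v at c1
            change 1 ≠ cls v at c2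
            change 2 ≠ cls v at c3
            omega⟩ ⟨s, by simp, g x D, by simp, by simp⟩
        rcases hp with rfl | rfl | rfl | rfl <;> rcases hq with rfl | rfl | rfl | rfl <;>
          simp_all
      have b3 : c (l x.1 (!x.2)) = c s := flip (hl _ a1 _ (a4 _) ⟨rfl, rfl⟩).symm b2
      have b4 := hl _ (a4 true) _ (a4 false) ⟨rfl, rfl, rfl⟩
      cases hx : x.2
      · rw [hx] at b3
        simpa using b3
      · rw [hx] at b3
        simpa using fun e' => b4 (e'.trans b3.symm)
  intro k C hC hC'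
  refine key C (hr k C hC) (flip (hl _ hC _ (hr k C hC) ⟨rfl, rfl⟩).symm ?_)
  intro b2
  obtain ⟨p, hp, q, hq, hpq⟩ := hc {s, r k C, n 0} ⟨by
      rintro _ (rfl | rfl | rfl)
      exacts [hs, hC, hn 0 (by omega)], by
      rintro _ (rfl | rfl | rfl) _ (rfl | rfl | rfl) hne <;>
        first | exact absurd rfl hne | simp [core, cls, ok], by
      intro v hvW hadj
      by_contra hv
      simp only [Set.mem_insert_iff, Set.mem_singleton_iff, not_or] at hv
      have c1 := (hadj (r k C) (by simp) (Ne.symm hv.2.1)).2.1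
      have c2 := (hadj (n 0) (by simp) (Ne.symm hv.2.2)).1
      rcases c1 with rfl | rfl | rfl | rfl
      · exact hv.1 rfl
      · exact hC' hvW
      · exact hv.2.2 rfl
      · exact c2 rfl⟩ ⟨s, by simp, r k C, by simp, by simp⟩
  rcases hp with rfl | rfl | rfl <;> rcases hq with rfl | rfl | rfl <;> simp_all

end Pool.Agent.Lib.MP_65ccf5_lc.Bd
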