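import Pool.Agent.Lib.MP_65ccf5_lc.BRed

/-!
Recognition of strongly `2`-divisible graphs of bounded clique number lies in `Π₂ᵖ`.
-/

set_option autoImplicit false

namespace Pool.Agent.Lib.MP_65ccf5_lc.Bd

open Pool.Agent.Lib.MP_acf5a6_lc N487b59b3

/-- All lists of length at most `k` with entries below `m`. -/
def tup (m : Un) : ℕ → List (List ℕ)
  | 0 => [[]]
  | k + 1 => [] :: (urange m).flatMap (fun i => (tup m k).map (fun x => i :: x))

theorem tup_PT (k : ℕ) : PT (fun m : Un => tup m k) := by
  induction k with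
  | zero => exact PT.const _
  | succ k ih =>
    unfold tup
    fun_prop

theorem mem_tup {m : Un} {k : ℕ} {x : List ℕ} :
    x ∈ tup m k ↔ x.length ≤ k ∧ ∀ i ∈ x, i < m.n := by
  induction k generalizing x with
  | zero => cases x <;> simp [tup]
  | succ k ih =>
    cases x with
    | nil => simp [tup]
    | cons i x => simp [tup, urange, ih, and_assoc, and_comm, and_left_comm]

/-- The characteristic list of a list of numbers. -/
def chr (m : Un) (x : List ℕ) : List Bool :=
  (urange m).map (fun i => !x.all (fun j => !decide (j = i)))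

theorem chr_getD {m : ℕ} (x : List ℕ) (i : Fin m) :
    (chr ⟨m⟩ x).getD i false = true ↔ (i : ℕ) ∈ x := by
  simp [chr, urange, List.getD_eq_getElem?_getD]

/-- The list has length `k` and enumerates a clique without repetition. -/
def clq (M : List (List Bool)) (k : ℕ) (x : List ℕ) : Bool :=
  decide (x.length = k) &&
    x.zipIdx.all (fun p => x.zipIdx.all (fun q => decide (p.2 = q.2) || ent M p.1 q.1))

/-- The test performed after the two quantifiers. -/
def good (k : ℕ) (M : List (List Bool)) (a b : List Bool) : Bool :=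
  (tup (ulen M) k).all (fun x => !clq M k x && !bad M a b (chr (ulen M) x))

theorem good_PT (k : ℕ) {α : Type} [N487b59b3 α] {M : α → List (List Bool)} {a b : α → List Bool}
    (hM : PT M) (ha : PT a) (hb : PT b) : PT (fun x => good k (M x) (a x) (b x)) := by
  have := tup_PT k
  unfold good clq bad chr ent
  fun_prop

theorem clq_iff (M : List (List Bool)) (k : ℕ) (x : List ℕ) : clq M k x = true ↔ x.length = k ∧
    ∀ (i j : ℕ) (hi : i < x.length) (hj : j < x.length), i ≠ j → ent M x[i] x[j] = true := by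
  simp only [clq, Bool.and_eq_true, decide_eq_true_eq, List.all_eq_true, Bool.or_eq_true]
  refine and_congr Iff.rfl ⟨fun h i j hi hj hij => ?_, fun h p hp q hq => ?_⟩
  · exact (h (x[i], i) (List.mk_mem_zipIdx_iff_getElem?.2 (by simp [hi])) (x[j], j)
      (List.mk_mem_zipIdx_iff_getElem?.2 (by simp [hj]))).resolve_left hij
  · obtain ⟨h1, e1⟩ := List.mem_zipIdx' hp
    obtain ⟨h2, e2⟩ := List.mem_zipIdx' hq
    by_cases e : p.2 = q.2
    · exact Or.inl e
    · rw [e1, e2]
      exact Or.inr (h _ _ h1 h2 e)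

theorem free_iff {m : ℕ} (G : SimpleGraph (Fin m)) (k : ℕ) :
    (∀ x ∈ tup ⟨m⟩ k, ¬ clq (adjM G) k x = true) ↔ G.CliqueFree k := by
  constructor
  · intro h
    by_contra hG
    have e := SimpleGraph.topEmbeddingOfNotCliqueFree hG
    refine h (List.ofFn fun i => (e i).1) (mem_tup.2 ⟨by simp, by simp⟩)
      ((clq_iff _ _ _).2 ⟨by simp, fun i j hi hj hij => ?_⟩)
    simp only [List.getElem_ofFn, ent_adjM]
    exact e.map_rel_iff.2 (by simpa using hij)
  · intro hG x hx h0
    obtain ⟨rfl, h⟩ := (clq_iff _ _ _).1 h0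
    have h1 := (mem_tup.1 hx).2
    have h2 : ∀ i j : Fin x.length, i ≠ j →
        G.Adj ⟨x[i], h1 _ (List.getElem_mem _)⟩ ⟨x[j], h1 _ (List.getElem_mem _)⟩ :=
      fun i j hij => (ent_adjM G _ _).1 (h i j i.2 j.2 (fun e => hij (Fin.ext e)))
    refine SimpleGraph.IsContained.not_cliqueFree
      ⟨⟨⟨fun i => ⟨x[i], h1 _ (List.getElem_mem _)⟩, fun {i j} hij => h2 i j hij⟩, fun i j e => ?_⟩⟩
      hG
    by_contra hij
    exact (h2 i j hij).ne e

theorem good_iff {m : ℕ} (G : SimpleGraph (Fin m)) (k : ℕ) (a b : List Bool) :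
    good k (adjM G) a b = true ↔
      G.CliqueFree k ∧ Col G {i | a.getD i false = true} (fun i => b.getD i false) := by
  classical
  have e : ulen (adjM G) = ⟨m⟩ := by simp [ulen, length_adjM]
  simp only [good, e, List.all_eq_true, Bool.and_eq_true, Bool.not_eq_true', ← Bool.not_eq_true,
    bad_iff, chr_getD, ← free_iff]
  constructor
  · intro h
    have hG : G.CliqueFree k := (free_iff G k).1 (fun x hx => (h x hx).1)
    refine ⟨fun x hx => (h x hx).1, fun K hK hn => ?_⟩
    have h1 : K.toFinset.card ≤ k := by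
      by_contra h1
      exact hG.mono (not_le.1 h1).le K.toFinset ⟨by simpa using hK.clq, rfl⟩
    have h2 : {i : Fin m | (i : ℕ) ∈ K.toFinset.toList.map Fin.val} = K := by
      ext i
      simp [Fin.val_inj]
    have h3 := (h (K.toFinset.toList.map Fin.val) (mem_tup.2 ⟨by simpa using h1, by simp⟩)).2
    rw [h2] at h3
    by_contra h4
    exact h3 ⟨hK, hn, h4⟩
  · rintro ⟨h1, h2⟩ x hx
    exact ⟨h1 x hx, fun h => h.2.2 (h2 _ h.1 h.2.1)⟩

theorem mem_pi2 (k : ℕ) : SDfree k ∈ Pi2 := by
  classical
  obtain ⟨F, hF, h1, h2⟩ := chk_bool.list.list.parse (g := fun M => (valid M, M))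
    (by unfold valid ent; fun_prop) (false, [])
  refine ⟨Polynomial.X, fun s => (F ⟨s.1⟩).1 && good k (F ⟨s.1⟩).2 s.2.1 s.2.2,
    PT.isPolyTime ?_, fun x => ?_⟩
  · have := PT.comp hF (PT.rawMk (f := fun s : List Bool × List Bool × List Bool => s.1)
      (by fun_prop))
    exact PT.and' (by fun_prop) (good_PT k (by fun_prop) (by fun_prop) (by fun_prop))
  simp only [Polynomial.eval_X, Bool.and_eq_true]
  by_cases hx : ∃ (n : ℕ) (G : SimpleGraph (Fin n)), x = bitEncode (adjM G)
  · obtain ⟨n, G, rfl⟩ := hx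
    have e : F ⟨bitEncode (adjM G)⟩ = (true, adjM G) := by
      rw [← (valid_iff _).2 ⟨n, G, rfl⟩]
      exact h1 _
    have hn : ∀ f : Fin n → Bool, (List.ofFn f).length ≤ (bitEncode (adjM G)).length := by
      intro f
      simpa [length_adjM, sz] using length_le_sz (adjM G)
    simp only [e, true_and, good_iff, sdfree_iff, sd_iff]
    constructor
    · rintro ⟨hG, h⟩ a _
      obtain ⟨c, hc⟩ := h {i | a.getD i false = true}
      exact ⟨List.ofFn c, hn _, hG, by simpa only [getD_ofFn] using hc⟩
    · intro h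
      refine ⟨(h [] (by simp)).choose_spec.2.1, fun W => ?_⟩
      obtain ⟨b, _, -, hb⟩ := h (List.ofFn fun i => decide (i ∈ W)) (hn _)
      simp only [getD_ofFn, decide_eq_true_eq, Set.ofPred_mem_eq] at hb
      exact ⟨_, hb⟩
  · have e : (F ⟨x⟩).1 = false := by
      by_cases h : ∃ M : List (List Bool), bitEncode M = x
      · obtain ⟨M, rfl⟩ := h
        have := h1 M
        simp only [toRaw] at this
        rw [this]
        by_contra hv
        obtain ⟨n, G, rfl⟩ := (valid_iff M).1 (by simpa using hv)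
        exact hx ⟨n, G, rfl⟩
      · rw [h2 ⟨x⟩ h]
    constructor
    · intro h
      obtain ⟨n, G, h, _⟩ := (sdfree_def k x).1 h
      exact absurd ⟨n, G, h⟩ hx
    · intro h
      obtain ⟨b, _, hb⟩ := h [] (by simp)
      simpa [e] using hb.1

end Pool.Agent.Lib.MP_65ccf5_lc.Bd
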