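import Pool.Agent.Lib.Common.CookLevin.Qbf

/-!
The Cook-Levin theorem for the second level of the polynomial hierarchy.
-/

set_option autoImplicit false

namespace Pool.Agent.Lib.MP_65ccf5_lc.Bd

open Pool.Agent.Lib.Common.CookLevin Pool.Agent.Lib.MP_acf5a6_lc N487b59b3

/-- All values of the variables of block `0` extend to a satisfying assignment. -/
def ESat (P : ℕ) (φ : List Clause) : Prop :=
  ∀ y : Var → Bool, ∃ z : Var → Bool,
    (∀ k < P, z (fv 0 k) = y (fv 0 k) ∧ z (dv 0 k) = y (dv 0 k)) ∧ ∀ C ∈ φ, Sat z C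

theorem esat_hard {α : Type} [N487b59b3 α] {R : α → Bool} (hR : N68a2faeb.IsPolyTime R)
    (p : Polynomial ℕ) (mk : List Bool → List Bool → List Bool → α)
    (tm : List Lit × List Lit × List Lit × List Lit → List Lit) (hP : PT tm)
    (htm : ∀ ρ : Var → Bool, ρ tt = true → ∀ x a b c : List Lit, (tm (x, a, b, c)).map (ev ρ) =
      bitEncode (mk (x.map (ev ρ)) (a.map (ev ρ)) (b.map (ev ρ)))) :
    ∃ F : List Bool → Un × List Clause, PT F ∧ ∀ x, ESat (F x).1.n (F x).2 ↔
      ∀ a : List Bool, a.length ≤ p.eval x.length → ∃ b : List Bool, b.length ≤ p.eval x.length ∧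
        R (mk x a b) = true := by
  classical
  obtain ⟨hR⟩ := hR
  obtain ⟨τ, time, hτ, hrun⟩ := exists_table (ea := fun a : α => bitEncode a) hR false
  let P : List Bool → Un := fun x => upoly p (ulen x)
  let cs : List Bool → List (Clause × List Lit) := fun x => inCases tm x (P x)
  let T : List Bool → Un := fun x => upoly time (ulen ((cs x).flatMap (fun c => c.2)))
  let S : List Bool → Un := fun x => ((T x).mul ⟨τ.D⟩).add ⟨1⟩
  have hP' : PT P := by fun_prop
  have hcs : PT cs := by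
    simp only [cs]
    unfold inCases ng sb rng fv dv
    fun_prop
  have hT : PT T := by fun_prop
  have hS : PT S := by fun_prop
  have hφ := cnf_PT τ hT hS hcs
  refine ⟨fun x => (P x, [(tt, true)] :: cnf τ (T x) (S x) (cs x)), by fun_prop, fun x => ?_⟩
  have hp : (P x).n = p.eval x.length := rfl
  have hx : ∀ ρ : Var → Bool, ρ tt = true → (x.map (fun b => (tt, b))).map (ev ρ) = x := by
    intro ρ h
    rw [List.map_map]
    conv_rhs => rw [← List.map_id x]
    exact List.map_congr_left (fun b _ => by cases b <;> simp [ev, h])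
  have hall : ∀ ρ : Var → Bool, ρ tt = true → ∀ c ∈ cs x, ¬ Sat ρ c.1 → c.2.map (ev ρ) =
      bitEncode (mk x (dec ρ 0 (P x).n) (dec ρ 1 (P x).n)) := by
    intro ρ h c hc hg
    simp only [cs, inCases, List.mem_flatMap, List.mem_map, urange, Un.add, List.mem_range] at hc
    obtain ⟨i, hi, j, hj, l, hl, rfl⟩ := hc
    simp only [sat_append, not_or] at hg
    obtain rfl := (len_iff (by omega)).1 hg.1
    obtain rfl := (len_iff (by omega)).1 hg.2.1
    rw [htm ρ h, hx ρ h, map_sb, map_sb]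
  have hex : ∀ ρ : Var → Bool, ∃ c ∈ cs x, ¬ Sat ρ c.1 := by
    intro ρ
    have h0 := len_le ρ 0 (P x).n
    have h1 := len_le ρ 1 (P x).n
    have h2 := len_le ρ 2 (P x).n
    refine ⟨(ng 0 (P x) (len ρ 0 (P x).n) ++ (ng 1 (P x) (len ρ 1 (P x).n) ++
      ng 2 (P x) (len ρ 2 (P x).n)), tm (x.map (fun b => (tt, b)), sb 0 (P x) (len ρ 0 (P x).n),
        sb 1 (P x) (len ρ 1 (P x).n), sb 2 (P x) (len ρ 2 (P x).n))), ?_, ?_⟩
    · simp only [cs, inCases, List.mem_flatMap, List.mem_map, urange, Un.add, List.mem_range]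
      exact ⟨_, Nat.lt_succ_of_le h0, _, Nat.lt_succ_of_le h1, _, Nat.lt_succ_of_le h2, rfl⟩
    · simp only [sat_append, not_or]
      exact ⟨(len_iff h0).2 rfl, (len_iff h1).2 rfl, (len_iff h2).2 rfl⟩
  have htime : ∀ ρ : Var → Bool, ρ tt = true → time.eval (bitEncode
      (mk x (dec ρ 0 (P x).n) (dec ρ 1 (P x).n))).length ≤ (T x).n := by
    intro ρ h
    obtain ⟨c, hc, hg⟩ := hex ρ
    rw [← hall ρ h c hc hg, List.length_map]
    exact eval_mono _ (List.Sublist.length_le (List.sublist_flatten_of_mem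
      (List.mem_map.2 ⟨c, hc, rfl⟩)))
  rw [← hp]
  constructor
  · intro hq a ha
    obtain ⟨z, hz, hφ⟩ := hq (spell a)
    have h1 : z tt = true := by simpa using hφ _ List.mem_cons_self
    have e0 : dec z 0 (P x).n = a := (dec_congr hz).trans (dec_spell (k := 0) ha)
    refine ⟨dec z 1 (P x).n, length_dec _ _ _, ?_⟩
    obtain ⟨run, hr, hout⟩ := hrun (mk x (dec z 0 (P x).n) (dec z 1 (P x).n))
    obtain ⟨c, hc, hg⟩ := hex z
    have h2 := cnf_sound hτ hr (by simp [S, Un.add, Un.mul])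
      (fun C hC => hφ C (List.mem_cons_of_mem _ hC)) hc hg (hall z h1 c hc hg)
    rw [← e0]
    by_contra h3
    exact h2 ((hout _ (htime z h1)).2 (by simpa using h3))
  · intro hq y
    obtain ⟨b, hb, hq⟩ := hq (dec y 0 (P x).n) (length_dec _ _ _)
    obtain ⟨run, hr, hout⟩ := hrun (mk x (dec y 0 (P x).n) b)
    let z : Var → Bool := fun v => if v.1 = 0 then y v else if v.1 = 1 then spell b v else
      if v.1 = 2 then true else tabVal run v.2
    have h1 : z tt = true := rfl
    have e0 : dec z 0 (P x).n = dec y 0 (P x).n := dec_congr (fun j _ => ⟨rfl, rfl⟩)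
    have e1 : dec z 1 (P x).n = b :=
      (dec_congr (ρ' := spell b) (fun j _ => ⟨rfl, rfl⟩)).trans (dec_spell (k := 1) hb)
    have h2 := hall z h1
    have h3 := htime z h1
    rw [e0, e1] at h2 h3
    refine ⟨z, fun k _ => ⟨rfl, rfl⟩, fun C hC => ?_⟩
    rcases List.mem_cons.1 hC with rfl | hC
    · simp [h1]
    · exact cnf_complete hr (fun _ _ => rfl) (fun _ _ _ _ => rfl) h2
        (fun h => by simpa [hq] using (hout _ h3).1 h) C hC

end Pool.Agent.Lib.MP_65ccf5_lc.Bd
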