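import Pool.Agent.Lib.MP_65ccf5_lc.Mem
import Pool.Agent.Lib.MP_65ccf5_lc.BGraph
import Pool.Agent.Lib.MP_65ccf5_lc.BSat
import Pool.Agent.Lib.MP_65ccf5_lc.BDefs

/-!
The reduction to strong `2`-divisibility of four-colourable graphs, and `Π₂ᵖ`-hardness.
-/

set_option autoImplicit false

namespace Pool.Agent.Lib.MP_65ccf5_lc.Bd

open Pool.Agent.Lib.Common.CookLevin Pool.Agent.Lib.MP_acf5a6_lc N487b59b3 Wx

theorem sdfree_def (k : ℕ) (x : List Bool) : SDfree k x = true ↔
    ∃ (m : ℕ) (G : SimpleGraph (Fin m)), x = bitEncode (adjM G) ∧ G.CliqueFree k ∧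
      StronglyDivisible 2 G := by
  simp only [SDfree, decide_eq_true_eq]
  rfl

theorem sdfree_iff (k : ℕ) {m : ℕ} (G : SimpleGraph (Fin m)) :
    SDfree k (bitEncode (adjM G)) = true ↔ G.CliqueFree k ∧ StronglyDivisible 2 G := by
  rw [sdfree_def]
  refine ⟨?_, fun h => ⟨m, G, rfl, h⟩⟩
  rintro ⟨m', G', e, h⟩
  have e1 := bitEncode_injective e
  obtain rfl : m = m' := by simpa [adjM] using congrArg List.length e1
  have e2 : G = G' := by
    ext i j
    simpa using congrFun (List.ofFn_injective (congrFun (List.ofFn_injective e1) i)) j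
  rwa [e2]

/-- Codes of the core vertices. -/
def code : Wx → ℕ × ℕ × Clause
  | s => (0, 0, [])
  | bt => (1, 0, [])
  | d => (2, 0, [])
  | n k => (3, k, [])
  | u k C => (4, k, C)
  | r k C => (5, k, C)
  | t D b => (cond b 6 7, 0, D)
  | l x b => (cond b 8 9, 0, [(x, b)])
  | g x D => (10, 0, x :: D)

theorem code_inj : Function.Injective code := by
  intro a b h
  cases a <;> cases b <;> simp only [code, Prod.mk.injEq] at h
  case t.t D b D' b' => cases b <;> cases b' <;> simp_all
  all_goals first | rfl | (simp_all; done) | (rename_i b; cases b <;> simp at h; done) |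
    (rename_i b _; cases b <;> simp at h; done) | (rename_i b _ _; cases b <;> simp at h; done) |
    (rename_i b _ b'; cases b <;> cases b' <;> simp at h)

noncomputable instance : N487b59b3 Wx :=
  ofLeftInverse code (Function.partialInv code) (Function.partialInv_left code_inj)

noncomputable instance : DecidableEq Wx := Classical.decEq _

section PT

variable {α : Type} [N487b59b3 α]

@[fun_prop] theorem code_PT {a : α → Wx} (ha : PT a) : PT (fun x => code (a x)) := ha

@[fun_prop] theorem n_PT {k : α → ℕ} (hk : PT k) : PT (fun a => n (k a)) :=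
  PT.of_enc (f := fun a => ((3, k a, []) : ℕ × ℕ × Clause)) (by fun_prop) (fun _ => rfl)

@[fun_prop] theorem u_PT {k : α → ℕ} {C : α → Clause} (hk : PT k) (hC : PT C) :
    PT (fun a => u (k a) (C a)) :=
  PT.of_enc (f := fun a => ((4, k a, C a) : ℕ × ℕ × Clause)) (by fun_prop) (fun _ => rfl)

@[fun_prop] theorem r_PT {k : α → ℕ} {C : α → Clause} (hk : PT k) (hC : PT C) :
    PT (fun a => r (k a) (C a)) :=
  PT.of_enc (f := fun a => ((5, k a, C a) : ℕ × ℕ × Clause)) (by fun_prop) (fun _ => rfl)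

@[fun_prop] theorem t_PT {D : α → Clause} {b : α → Bool} (hD : PT D) (hb : PT b) :
    PT (fun a => t (D a) (b a)) :=
  PT.of_enc (f := fun a => ((cond (b a) 6 7, 0, D a) : ℕ × ℕ × Clause)) (by fun_prop)
    (fun _ => rfl)

@[fun_prop] theorem l_PT {x : α → Var} {b : α → Bool} (hx : PT x) (hb : PT b) :
    PT (fun a => l (x a) (b a)) :=
  PT.of_enc (f := fun a => ((cond (b a) 8 9, 0, [(x a, b a)]) : ℕ × ℕ × Clause)) (by fun_prop)
    (fun _ => rfl)

@[fun_prop] theorem g_PT {x : α → Lit} {D : α → Clause} (hx : PT x) (hD : PT D) :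
    PT (fun a => g (x a) (D a)) :=
  PT.of_enc (f := fun a => ((10, 0, x a :: D a) : ℕ × ℕ × Clause)) (by fun_prop) (fun _ => rfl)

end PT

/-- The classes on codes. -/
def clsB (c : ℕ) : ℕ :=
  cond (decide (c = 0)) 0 (cond (decide (c = 4) || decide (c = 6) || decide (c = 8)) 1
    (cond (decide (c = 2) || decide (c = 3) || decide (c = 7) || decide (c = 9)) 2 3))

/-- The code of the opposite literal vertex. -/
def opp (a : ℕ × ℕ × Clause) : ℕ × ℕ × Clause := (cond (hd a).2 9 8, 0, [((hd a).1, !(hd a).2)])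

/-- The allowed neighbours on codes. -/
def okB (a v : ℕ × ℕ × Clause) : Bool :=
  cond (decide (a.1 = 5))
    (decide (v = (0, 0, [])) || (decide (v = (4, a.2.1, a.2.2)) || (decide (v = (3, 0, [])) ||
      decide (v = (7, 0, a.2.2)))))
    (cond (decide (a.1 = 10))
      (decide (v = (0, 0, [])) || ((decide (v.1 = 4) && decide (v.2.1 = 0)) ||
        (decide (v = (2, 0, [])) || (decide (v = (6, 0, a.2.2.tail)) ||
          (decide (v = (7, 0, a.2.2)) || decide (v = opp a))))))
      true)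

/-- The links on codes. -/
def lkB (L : ℕ) (a b : ℕ × ℕ × Clause) : Bool :=
  (decide (a.1 = 3) && decide (b.1 = 4) &&
    (decide (a.2.1 = b.2.1) || decide (a.2.1 = b.2.1 + 1))) ||
  (decide (a.1 = 3) && decide (b.1 = 1) && decide (a.2.1 = L)) ||
  (decide (a.1 = 1) && decide (b.1 = 0)) ||
  (decide (a.1 = 0) && decide (b.1 = 2)) ||
  (decide (a.1 = 2) && decide (b = (6, 0, []))) ||
  (decide (a.1 = 6) && decide (b.1 = 7) && decide (a.2.2 = b.2.2)) ||
  (decide (a.1 = 8) && decide (b.1 = 9) && decide ((hd a).1 = (hd b).1)) ||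
  (decide (a.1 = 5) && decide (b.1 = 7) && decide (a.2.2 = b.2.2)) ||
  (decide (a.1 = 10) && decide (b = opp a))

@[fun_prop] theorem clsB_PT {α : Type} [N487b59b3 α] {c : α → ℕ} (hc : PT c) :
    PT (fun a => clsB (c a)) := by
  unfold clsB
  fun_prop

@[fun_prop] theorem okB_PT {α : Type} [N487b59b3 α] {a b : α → ℕ × ℕ × Clause}
    (ha : PT a) (hb : PT b) : PT (fun x => okB (a x) (b x)) := by
  unfold okB opp hd
  fun_prop

@[fun_prop] theorem lkB_PT {α : Type} [N487b59b3 α] {L : α → ℕ} {a b : α → ℕ × ℕ × Clause}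
    (hL : PT L) (ha : PT a) (hb : PT b) : PT (fun x => lkB (L x) (a x) (b x)) := by
  unfold lkB opp hd
  fun_prop

theorem clsB_code (a : Wx) : clsB (code a).1 = cls a := by
  cases a <;> first | rfl | (rename_i b; cases b <;> rfl)

theorem opp_code (x : Lit) (D : Clause) : opp (code (g x D)) = code (l x.1 (!x.2)) := by
  obtain ⟨x, b⟩ := x
  cases b <;> rfl

theorem okB_code (a v : Wx) : okB (code a) (code v) = true ↔ ok a v := by
  cases a
  case r k C =>
    simp only [ok, ← code_inj.eq_iff]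
    simp [okB, code]
  case g x D =>
    have h : (∃ C, v = u 0 C) ↔ (code v).1 = 4 ∧ (code v).2.1 = 0 := by
      cases v <;> first | (simp [code]; done) | (rename_i b; cases b <;> simp [code])
    simp only [ok, h]
    simp only [← code_inj.eq_iff, ← opp_code x D]
    simp [okB, code]
  case t D b => cases b <;> simp [okB, code, ok]
  case l x b => cases b <;> simp [okB, code, ok]
  all_goals simp [okB, code, ok]

theorem lkB_code (L : ℕ) (a b : Wx) : lkB L (code a) (code b) = true ↔ Lk0 L a b := by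
  cases a
  case g x D =>
    have h : Lk0 L (g x D) b ↔ b = l x.1 (!x.2) := by cases b <;> simp [Lk0]
    rw [h, ← code_inj.eq_iff, ← opp_code x D]
    simp [lkB, code]
  case t D c =>
    cases c <;> cases b <;>
      first | (simp [lkB, code, Lk0]; done) | (rename_i b; cases b <;> simp [lkB, code, Lk0])
  case l D c =>
    cases c <;> cases b <;>
      first | (simp [lkB, code, Lk0]; done) | (rename_i b; cases b <;> simp [lkB, code, Lk0, hd])
  all_goals
    cases b <;>
      first | (simp [lkB, code, Lk0]; done) | (rename_i b; cases b <;> simp [lkB, code, Lk0])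

/-- Decoding of vertex names. -/
def dG (x : Bool × Wx × Wx) : Wx ⊕ Wx × Wx := cond x.1 (.inr x.2) (.inl x.2.1)

/-- Adjacency of vertex names. -/
noncomputable def adjG (x y : Bool × Wx × Wx) : Bool :=
  cond x.1
    (cond y.1 (decide (x.2.1 = y.2.2) && decide (x.2.2 = y.2.1) && !decide (x.2.1 = x.2.2))
      (decide (y.2.1 = x.2.1)))
    (cond y.1 (decide (x.2.1 = y.2.1))
      (!decide (clsB (code x.2.1).1 = clsB (code y.2.1).1) && okB (code x.2.1) (code y.2.1) &&
        okB (code y.2.1) (code x.2.1)))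

theorem adjG_iff (x y : Bool × Wx × Wx) :
    adjG x y = true ↔ (full core).Adj (dG x) (dG y) := by
  obtain ⟨b, a, v⟩ := x
  obtain ⟨b', a', v'⟩ := y
  cases b <;> cases b' <;> simp [adjG, dG, full, fullAdj, core, okB_code, clsB_code, and_assoc]

/-- The four alternatives of a layer. -/
def lay (k : ℕ) : List Clause :=
  [[(fv 0 k, true), (dv 0 k, true)], [(fv 0 k, true), (dv 0 k, false)],
    [(fv 0 k, false), (dv 0 k, true)], [(fv 0 k, false), (dv 0 k, false)]]

theorem mem_lay {k : ℕ} {C : Clause} : C ∈ lay k ↔ ∃ a b, C = [(fv 0 k, a), (dv 0 k, b)] := by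
  simp [lay, or_assoc, or_comm, or_left_comm]

/-- Removing the first `i` entries. -/
def dropB (C : Clause) (i : ℕ) : Clause :=
  (C.zipIdx.filter (fun x => decide (i ≤ x.2))).map (fun x => x.1)

theorem dropB_eq (C : Clause) (i : ℕ) : dropB C i = C.drop i := by
  have key : ∀ (C : Clause) (k i : ℕ), ((C.zipIdx k).filter
      (fun x => decide (i + k ≤ x.2))).map (fun x => x.1) = C.drop i := by
    intro C
    induction C with
    | nil => simp
    | cons a C ih =>
      intro k i
      cases i with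
      | zero =>
        rw [List.filter_eq_self.2 (fun x hx => by simpa using (List.mem_zipIdx hx).1)]
        simp
      | succ i =>
        rw [List.zipIdx_cons, List.filter_cons_of_neg (by simp), List.drop_succ_cons,
          ← ih (k + 1) i, show i + 1 + k = i + (k + 1) by omega]
  exact key C 0 i

/-- All final segments of the clauses that occur. -/
def sf (P : Un) (φ : List Clause) : List Clause :=
  ([] :: ((urange P).flatMap lay ++ φ)).flatMap
    (fun C => (urange ((ulen C).add ⟨1⟩)).map (dropB C))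

theorem mem_sf {P : Un} {φ : List Clause} {D : Clause} : D ∈ sf P φ ↔
    ∃ C, (C = [] ∨ (∃ k < P.n, C ∈ lay k) ∨ C ∈ φ) ∧ ∃ i ≤ C.length, C.drop i = D := by
  simp only [sf, List.mem_flatMap, List.mem_cons, List.mem_append, List.mem_map, urange,
    List.mem_range, Un.add, ulen, dropB_eq, Nat.lt_succ_iff]

theorem sf_tail {P : Un} {φ : List Clause} {x : Lit} {D : Clause} (h : x :: D ∈ sf P φ) :
    D ∈ sf P φ := by
  obtain ⟨C, hC, i, hi, e⟩ := mem_sf.1 h
  have h1 := congrArg List.length e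
  simp only [List.length_drop, List.length_cons] at h1
  exact mem_sf.2 ⟨C, hC, i + 1, by omega, by rw [← List.tail_drop, e]; rfl⟩

/-- The core vertices. -/
def coreN (a : Un × List Clause) : List Wx :=
  s :: bt :: d :: u 0 [] :: ((urange (a.1.add ⟨2⟩)).map (fun k => n k) ++
    ((urange a.1).flatMap (fun k => (lay k).flatMap (fun C => [u (k + 1) C, r (k + 1) C])) ++
      (a.2.map (fun C => r (a.1.n + 1) C) ++
        (sf a.1 a.2).flatMap (fun D => [t D true, t D false, g (D.headD (tt, true)) D.tail,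
          l (D.headD (tt, true)).1 true, l (D.headD (tt, true)).1 false]))))

/-- All vertices. -/
def names (a : Un × List Clause) : List (Bool × Wx × Wx) :=
  (coreN a).map (fun x => (false, x, x)) ++
    (coreN a).flatMap (fun x => ((coreN a).filter (fun v =>
      lkB (a.1.n + 1) (code x) (code v) || lkB (a.1.n + 1) (code v) (code x))).map
        (fun v => (true, x, v)))

/-- The adjacency matrix produced by the reduction. -/
noncomputable def mat (a : Un × List Clause) : List (List Bool) :=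
  (names a).map fun x => (names a).map (adjG x)

theorem mat_PT : PT mat := by
  have h1 : PT coreN := by
    unfold coreN sf dropB lay fv dv
    fun_prop
  have h2 : PT names := by
    unfold names
    fun_prop
  unfold mat adjG
  fun_prop

theorem mem_names (a : Un × List Clause) (v : Wx ⊕ Wx × Wx) :
    (∃ x ∈ names a, dG x = v) ↔ v.elim (fun v => v ∈ coreN a)
      (fun e => e.1 ∈ coreN a ∧ e.2 ∈ coreN a ∧ Lk (a.1.n + 1) e.1 e.2) := by
  simp only [names, List.mem_append, List.mem_map, List.mem_flatMap, List.mem_filter,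
    Bool.or_eq_true, lkB_code]
  constructor
  · rintro ⟨_, ⟨x, hx, rfl⟩ | ⟨x, hx, v, ⟨hv, h⟩, rfl⟩, rfl⟩
    · exact hx
    · exact ⟨hx, hv, h⟩
  · rcases v with x | ⟨x, v⟩
    · exact fun h => ⟨_, Or.inl ⟨x, h, rfl⟩, rfl⟩
    · exact fun h => ⟨_, Or.inr ⟨x, h.1, v, ⟨h.2.1, h.2.2⟩, rfl⟩, rfl⟩

theorem u_mem (a : Un × List Clause) (k : ℕ) (C : Clause) :
    u k C ∈ coreN a ↔ (k = 0 ∧ C = []) ∨ ∃ j < a.1.n, C ∈ lay j ∧ k = j + 1 := by
  simp only [coreN, urange, List.mem_cons, List.mem_append, List.mem_map, List.mem_flatMap,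
    List.mem_range, reduceCtorEq, u.injEq, and_false, exists_false, false_or, or_false,
    List.not_mem_nil, or_self]
  refine or_congr Iff.rfl ⟨?_, ?_⟩
  · rintro ⟨j, hj, C', hC, rfl, rfl⟩
    exact ⟨j, hj, hC, rfl⟩
  · rintro ⟨j, hj, hC, rfl⟩
    exact ⟨j, hj, C, hC, rfl, rfl⟩

theorem r_mem (a : Un × List Clause) (k : ℕ) (C : Clause) :
    r k C ∈ coreN a ↔ (∃ j < a.1.n, C ∈ lay j ∧ k = j + 1) ∨ (C ∈ a.2 ∧ k = a.1.n + 1) := by
  simp only [coreN, urange, List.mem_cons, List.mem_append, List.mem_map, List.mem_flatMap,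
    List.mem_range, reduceCtorEq, r.injEq, and_false, exists_false, false_or, or_false,
    List.not_mem_nil, or_self]
  refine or_congr ⟨?_, ?_⟩ ⟨?_, ?_⟩
  · rintro ⟨j, hj, C', hC, rfl, rfl⟩
    exact ⟨j, hj, hC, rfl⟩
  · rintro ⟨j, hj, hC, rfl⟩
    exact ⟨j, hj, C, hC, rfl, rfl⟩
  · rintro ⟨C', hC, rfl, rfl⟩
    exact ⟨hC, rfl⟩
  · rintro ⟨hC, rfl⟩
    exact ⟨C, hC, rfl, rfl⟩

theorem t_mem (a : Un × List Clause) (D : Clause) (b : Bool) :
    t D b ∈ coreN a ↔ D ∈ sf a.1 a.2 := by
  cases b <;> simp [coreN]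

theorem gl_mem {a : Un × List Clause} {x : Lit} {D : Clause} (h : x :: D ∈ sf a.1 a.2) :
    g x D ∈ coreN a ∧ ∀ b, l x.1 b ∈ coreN a := by
  have key : ∀ v ∈ [t (x :: D) true, t (x :: D) false, g x D, l x.1 true, l x.1 false],
      v ∈ coreN a := by
    intro v hv
    simp only [coreN, List.mem_append, List.mem_flatMap]
    iterate 4 refine List.mem_cons_of_mem _ ?_
    simp only [List.mem_append, List.mem_flatMap]
    exact Or.inr (Or.inr (Or.inr ⟨_, h, hv⟩))
  exact ⟨key _ (by simp), fun b => key _ (by cases b <;> simp)⟩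

theorem mat_iff (a : Un × List Clause) : SD2 (bitEncode (mat a)) = true ↔ ESat a.1.n a.2 := by
  rw [mat, sd2_mat _ _ _ _ adjG_iff]
  constructor
  · intro h y
    let W : Set Wx := {v | v ∈ coreN a ∧ ∀ k C, v = u (k + 1) C →
      C = [(fv 0 k, !y (fv 0 k)), (dv 0 k, !y (dv 0 k))]}
    have hW : ∀ v ∈ coreN a, (∀ k C, v ≠ u k C) → v ∈ W :=
      fun v hv h => ⟨hv, fun k C e => absurd e (h _ _)⟩
    obtain ⟨c, hc⟩ := h {v | v.elim (fun v => v ∈ W) (fun e =>
        e.1 ∈ W ∧ e.2 ∈ W ∧ Lk (a.1.n + 1) e.1 e.2)} (by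
      rintro (v | e) hv
      · exact (mem_names _ _).2 hv.1
      · exact (mem_names _ _).2 ⟨hv.1.1, hv.2.1.1, hv.2.2⟩)
    obtain ⟨h2, h3⟩ := col_core hc
    obtain ⟨z, hz⟩ := core_not_col (L := a.1.n + 1) (W := W) (hW _ (by simp [coreN]) (by simp))
      (hW _ (by simp [coreN]) (by simp)) (hW _ (by simp [coreN]) (by simp))
      (fun k hk => hW _ (by simp [coreN, urange, Un.add]; omega) (by simp))
      (fun k hk => by
        cases k with
        | zero => exact ⟨[], by simp [coreN], by simp⟩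
        | succ k =>
          refine ⟨[(fv 0 k, !y (fv 0 k)), (dv 0 k, !y (dv 0 k))],
            (u_mem _ _ _).2 (Or.inr ⟨k, by omega, mem_lay.2 ⟨_, _, rfl⟩, rfl⟩), ?_⟩
          intro j C e
          obtain ⟨e1, rfl⟩ := u.inj e
          obtain rfl : k = j := by omega
          rfl)
      (hW _ ((t_mem _ _ _).2 (mem_sf.2 ⟨[], Or.inl rfl, 0, le_rfl, rfl⟩)) (by simp))
      (fun x D hD => by
        have h4 := (t_mem _ _ _).1 hD.1
        exact ⟨hW _ (gl_mem h4).1 (by simp), hW _ ((t_mem _ _ _).2 (sf_tail h4)) (by simp),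
          hW _ ((t_mem _ _ _).2 (sf_tail h4)) (by simp),
          fun b => hW _ ((gl_mem h4).2 b) (by simp)⟩)
      (fun k C hC => hW _ ((t_mem _ _ _).2 (mem_sf.2 ⟨C, by
        rcases (r_mem _ _ _).1 hC.1 with ⟨j, hj, h4, -⟩ | h4
        · exact Or.inr (Or.inl ⟨j, hj, h4⟩)
        · exact Or.inr (Or.inr h4.1), 0, Nat.zero_le _, rfl⟩)) (by simp)) h2
      (fun x hx v hv h => h3 x v (fun e => lk0_cls x v h (by rw [e])) hx hv
        ⟨hx, hv, Or.inl h⟩ ⟨hv, hx, Or.inr h⟩)
    refine ⟨z, fun k hk => ?_, fun C hC => hz (a.1.n + 1) C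
      (hW _ ((r_mem _ _ _).2 (Or.inr ⟨hC, rfl⟩)) (by simp)) (fun h4 => ?_)⟩
    · have key : ∀ p q : Bool, ¬ (p = !y (fv 0 k) ∧ q = !y (dv 0 k)) →
          z (fv 0 k) = p ∨ z (dv 0 k) = q := by
        intro p q hpq
        simpa using hz (k + 1) [(fv 0 k, p), (dv 0 k, q)]
          (hW _ ((r_mem _ _ _).2 (Or.inl ⟨k, hk, mem_lay.2 ⟨_, _, rfl⟩, rfl⟩)) (by simp))
          (fun h4 => hpq (by simpa using h4.2 k _ rfl))
      have h4 := key (!z (fv 0 k)) (!z (dv 0 k))
      revert h4
      cases z (fv 0 k) <;> cases z (dv 0 k) <;> cases y (fv 0 k) <;> cases y (dv 0 k) <;> simp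
    · rcases (u_mem _ _ _).1 h4.1 with h5 | ⟨j, hj, -, h5⟩ <;> omega
  · intro h W hW
    obtain ⟨c, hc, hl⟩ := core_col (L := a.1.n + 1) (by omega) (Sum.inl ⁻¹' W) (fun h1 => by
      have h2 : ∀ k, ∃ p q : Bool, k < a.1.n →
          u (k + 1) [(fv 0 k, p), (dv 0 k, q)] ∈ Sum.inl ⁻¹' W := by
        intro k
        by_cases hk : k < a.1.n
        · obtain ⟨C, hC⟩ := h1 (k + 1) (by omega)
          rcases (u_mem _ _ _).1 ((mem_names _ _).1 (hW hC)) with h5 | ⟨j, hj, h5, h6⟩
          · omega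
          · obtain rfl : k = j := by omega
            obtain ⟨p, q, rfl⟩ := mem_lay.1 h5
            exact ⟨p, q, fun _ => hC⟩
        · exact ⟨true, true, fun h => absurd h hk⟩
      choose p q hpq using h2
      obtain ⟨z, hz, hφ⟩ := h (fun v => if v.2.headD 0 = 0 then !p (v.2.getD 1 0)
        else !q (v.2.getD 1 0))
      refine ⟨z, fun k C hr hu => ?_⟩
      rcases (r_mem _ _ _).1 ((mem_names _ _).1 (hW hr)) with ⟨j, hj, h5, rfl⟩ | h5
      · obtain ⟨p', q', rfl⟩ := mem_lay.1 h5
        obtain ⟨e1, e2⟩ := hz j hj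
        have e3 : z (fv 0 j) = !p j := e1
        have e4 : z (dv 0 j) = !q j := e2
        have e5 : ¬ (p' = p j ∧ q' = q j) := by
          rintro ⟨rfl, rfl⟩
          exact hu (hpq j hj)
        simp only [sat_cons, sat_nil, or_false, e3, e4]
        revert e5
        cases p' <;> cases q' <;> cases p j <;> cases q j <;> simp
      · exact hφ C h5.1)
    exact full_col (colA_lk (fun _ => false)) (fun e he => ((mem_names _ _).1 (hW he)).2.2) hc
      (fun x v hx hv => hl x hx v hv)

theorem mat_col (a : Un × List Clause) :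
    ∃ (m : ℕ) (G : SimpleGraph (Fin m)), mat a = adjM G ∧ G.Colorable 4 := by
  refine ⟨(names a).length, (full core).comap fun i => dG (names a)[i], ?_, ?_⟩
  · refine List.ext_getElem (by simp [adjM, mat]) (fun i h1 h2 => ?_)
    refine List.ext_getElem (by simp [adjM, mat]) (fun j h3 h4 => ?_)
    simp only [adjM, mat, List.getElem_map, List.getElem_ofFn, SimpleGraph.comap_adj]
    rw [Bool.eq_iff_iff, adjG_iff]
    simp
  · have h1 : ∀ (i : Fin (names a).length) e, dG (names a)[i] = .inr e → cls e.1 ≠ cls e.2 :=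
      fun i e h => (((mem_names a (.inr e)).1 ⟨_, List.getElem_mem _, h⟩).2.2).elim
        (lk0_cls _ _) (fun h => (lk0_cls _ _ h).symm)
    refine ⟨SimpleGraph.Coloring.mk
      (fun i => ⟨cls ((dG (names a)[i]).elim id (fun e => e.2)), cls_lt _⟩) (fun {i j} h => ?_)⟩
    have h2 := h1 i
    have h3 := h1 j
    simp only [SimpleGraph.comap_adj] at h
    simp only [ne_eq, Fin.mk.injEq]
    generalize dG (names a)[i] = x at h h2
    generalize dG (names a)[j] = y at h h3
    rcases x with x | e <;> rcases y with y | e'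
    · exact h.1
    · obtain rfl : x = e'.1 := h
      exact h3 _ rfl
    · obtain rfl : y = e.1 := h
      exact (h2 _ rfl).symm
    · have h4 := h2 _ rfl
      rw [h.1] at h4
      exact h4.symm

theorem pi2_hard {k : ℕ} (hk : 5 ≤ k) : ∀ A ∈ Pi2, N793a5b8e.ManyOneReducible A (SDfree k) := by
  rintro A ⟨p, R, hR, hA⟩
  obtain ⟨F, hF, hq⟩ := esat_hard hR p (fun x a b => (x, a, b))
    (fun s => delS (encS s.1) ++ (delS (encS s.2.1) ++ encS s.2.2.1))
    (by unfold delS encS; fun_prop)
    (fun ρ h x a b c => by simp only [List.map_append, map_delS h, map_encS h, enc_pair])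
  refine ⟨fun x => (toRaw (mat (F x))).s,
    PT.isPolyTime (PT.rawBits (PT.toRaw' (PT.comp mat_PT hF))), fun x => ?_⟩
  obtain ⟨m, G, e, hG⟩ := mat_col (F x)
  rw [Bool.eq_iff_iff, hA, ← hq, ← mat_iff]
  change _ ↔ SDfree k (bitEncode (mat (F x))) = true
  rw [e, sdfree_iff, sd2_iff]
  exact ⟨fun h => ⟨hG.cliqueFree (by omega), h⟩, fun h => h.2⟩

end Pool.Agent.Lib.MP_65ccf5_lc.Bd
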