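import Pool.Agent.Lib.MP_65ccf5_lc.Defs

/-!
Clique colourings of induced subgraphs, false twins, and the path gadget forcing different colours.
-/

set_option autoImplicit false

namespace Pool.Agent.Lib.MP_65ccf5_lc

variable {U V : Type}

/-- `K` is a maximal clique of the subgraph induced on `W`. -/
structure MC (H : SimpleGraph U) (W K : Set U) : Prop where
  sub : K ⊆ W
  clq : H.IsClique K
  mx : ∀ u ∈ W, (∀ v ∈ K, v ≠ u → H.Adj v u) → u ∈ K

/-- `c` is a clique colouring of the subgraph induced on `W`. -/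
def Col (H : SimpleGraph U) (W : Set U) (c : U → Bool) : Prop :=
  ∀ K, MC H W K → K.Nontrivial → ∃ u ∈ K, ∃ v ∈ K, c u ≠ c v

theorem MC.mem_or {H : SimpleGraph U} {W K : Set U} (h : MC H W K) {u : U} (hu : u ∈ W) :
    u ∈ K ∨ ∃ v ∈ K, v ≠ u ∧ ¬ H.Adj v u := by
  by_contra hc
  push Not at hc
  exact hc.1 (h.mx u hu hc.2)

theorem col_of {H : SimpleGraph U} {W : Set U} {c : U → Bool}
    (h : ∀ K, MC H W K → K.Nontrivial → (∃ u ∈ K, c u = false) ∧ ∃ v ∈ K, c v = true) :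
    Col H W c := by
  intro K hK hn
  obtain ⟨⟨u, hu, e⟩, v, hv, e'⟩ := h K hK hn
  exact ⟨u, hu, v, hv, by simp [e, e']⟩

theorem maximal_iff (G : SimpleGraph U) (W : Set U) (K : Set W) :
    Maximal (G.induce W).IsClique K ↔ MC G W (Subtype.val '' K) := by
  constructor
  · intro h
    refine ⟨by rintro _ ⟨a, _, rfl⟩; exact a.2, ?_, fun u hu hadj => ?_⟩
    · rintro _ ⟨a, ha, rfl⟩ _ ⟨b, hb, rfl⟩ hab
      exact h.1 ha hb (fun e => hab (congrArg _ e))
    · have : (G.induce W).IsClique (insert ⟨u, hu⟩ K) := by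
        refine h.1.insert (fun b hb hne => ?_)
        exact (hadj b ⟨b, hb, rfl⟩ (fun e => hne (Subtype.ext e.symm))).symm
      exact ⟨⟨u, hu⟩, h.2 this (Set.subset_insert _ _) (Set.mem_insert _ _), rfl⟩
  · intro h
    refine ⟨fun a ha b hb hab => h.clq ⟨a, ha, rfl⟩ ⟨b, hb, rfl⟩ (fun e => hab (Subtype.ext e)),
      fun K' hK' hsub a ha => ?_⟩
    obtain ⟨b, hb, e⟩ := h.mx a a.2 (by
      rintro _ ⟨b, hb, rfl⟩ hne
      exact hK' (hsub hb) ha (fun e => hne (congrArg _ e)))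
    rwa [← Subtype.ext e]

theorem sd_iff (G : SimpleGraph U) : StronglyDivisible 2 G ↔ ∀ W, ∃ c, Col G W c := by
  classical
  refine forall_congr' (fun W => ⟨?_, ?_⟩)
  · rintro ⟨c, hc⟩
    refine ⟨fun u => if h : u ∈ W then decide (c ⟨u, h⟩ = 0) else false, fun K hK hn => ?_⟩
    have e : Subtype.val '' (Subtype.val ⁻¹' K : Set W) = K :=
      Set.image_preimage_eq_of_subset (by simpa using hK.sub)
    have h1 := hc (Subtype.val ⁻¹' K) ((maximal_iff G W _).2 (by rwa [e]))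
      (Set.nontrivial_of_image Subtype.val _ (by rwa [e]))
    obtain ⟨a, ha, ha'⟩ := Set.not_subset.1 (h1 0)
    obtain ⟨b, hb, hb'⟩ := Set.not_subset.1 (h1 1)
    refine ⟨a, ha, b, hb, ?_⟩
    simp only [Set.mem_preimage, Set.mem_singleton_iff] at ha' hb'
    have : c b = 0 := by omega
    simp [ha', this]
  · rintro ⟨c, hc⟩
    refine ⟨fun u => if c u then 1 else 0, fun K hK hn i hi => ?_⟩
    obtain ⟨_, ⟨a, ha, rfl⟩, _, ⟨b, hb, rfl⟩, hab⟩ := hc _ ((maximal_iff G W K).1 hK)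
      (hn.image Subtype.val_injective)
    have h1 := hi ha
    have h2 := hi hb
    simp only [Set.mem_preimage, Set.mem_singleton_iff] at h1 h2
    rw [← h2] at h1
    revert hab h1
    cases c a <;> cases c b <;> simp

theorem col_comap {G : SimpleGraph V} {H : SimpleGraph U} {f : V → U}
    (hf : ∀ a b, G.Adj a b ↔ H.Adj (f a) (f b)) {W : Set V} {c : U → Bool}
    (h : Col H (f '' W) c) : Col G W (c ∘ f) := by
  intro K hK hn
  obtain ⟨_, ⟨a, ha, rfl⟩, _, ⟨b, hb, rfl⟩, hab⟩ := h (f '' K) ⟨Set.image_mono hK.sub, by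
      rintro _ ⟨a, ha, rfl⟩ _ ⟨b, hb, rfl⟩ hab
      exact (hf a b).1 (hK.clq ha hb (fun e => hab (congrArg _ e))), by
      rintro _ ⟨w, hw, rfl⟩ hadj
      by_contra hn
      exact hn ⟨w, hK.mx w hw (fun a ha _ => (hf a w).2
        (hadj _ ⟨a, ha, rfl⟩ (fun e => hn ⟨a, ha, e⟩))), rfl⟩⟩ (by
      obtain ⟨a, ha, b, hb, hab⟩ := hn
      exact ⟨_, ⟨a, ha, rfl⟩, _, ⟨b, hb, rfl⟩, ((hf a b).1 (hK.clq ha hb hab)).ne⟩)
  exact ⟨a, ha, b, hb, hab⟩

theorem col_of_comap {G : SimpleGraph V} {H : SimpleGraph U} {f : V → U}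
    (hf : ∀ a b, G.Adj a b ↔ H.Adj (f a) (f b)) {W : Set U} (hW : W ⊆ Set.range f) {c : V → Bool}
    (h : Col G (f ⁻¹' W) c) : ∃ c', Col H W c' := by
  classical
  choose g hg using hW
  refine ⟨fun u => if h : u ∈ W then c (g h) else false, fun K hK hn => ?_⟩
  obtain ⟨_, ⟨a, ha, rfl⟩, _, ⟨b, hb, rfl⟩, hab⟩ :=
    h {x | ∃ u, ∃ hu : u ∈ K, g (hK.sub hu) = x} ⟨by
      rintro _ ⟨a, ha, rfl⟩
      simpa [hg] using hK.sub ha, by
      rintro _ ⟨a, ha, rfl⟩ _ ⟨b, hb, rfl⟩ hab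
      rw [hf, hg, hg]
      exact hK.clq ha hb (by rintro rfl; exact hab rfl), by
      intro w hw hadj
      by_contra hn
      have h1 : ∀ u ∈ K, H.Adj u (f w) := fun u hu => by
        have := (hf _ _).1 (hadj _ ⟨u, hu, rfl⟩ (fun e => hn ⟨u, hu, e⟩))
        rwa [hg] at this
      exact (h1 _ (hK.mx _ hw (fun v hv _ => h1 v hv))).ne rfl⟩ (by
      obtain ⟨a, ha, b, hb, hab⟩ := hn
      refine ⟨_, ⟨a, ha, rfl⟩, _, ⟨b, hb, rfl⟩, fun e => hab ?_⟩
      rw [← hg (hK.sub ha), ← hg (hK.sub hb), e])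
  exact ⟨a, ha, b, hb, by simpa [hK.sub ha, hK.sub hb] using hab⟩

/-- Adjacency after attaching the paths `u - (u, v) - (v, u) - v`. -/
def fullAdj (H : SimpleGraph U) : U ⊕ U × U → U ⊕ U × U → Prop
  | .inl u, .inl v => H.Adj u v
  | .inl u, .inr e => u = e.1
  | .inr e, .inl u => u = e.1
  | .inr e, .inr e' => e.1 = e'.2 ∧ e.2 = e'.1 ∧ e.1 ≠ e.2

/-- The graph with the paths attached. -/
def full (H : SimpleGraph U) : SimpleGraph (U ⊕ U × U) where
  Adj := fullAdj H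
  symm := ⟨by
    rintro (u | e) (v | e') h
    · exact h.symm
    · exact h
    · exact h
    · exact ⟨h.2.1.symm, h.1.symm, fun e => h.2.2 (h.1.trans (e.symm.trans h.2.1.symm))⟩⟩
  loopless := ⟨by
    rintro (u | e) h
    · exact H.irrefl h
    · exact h.2.2 h.1⟩

theorem full_col {H : SimpleGraph U} {Lk : U → U → Prop} {β : U → Bool}
    (hβ : ∀ u v, Lk u v → β u ≠ β v) {W : Set (U ⊕ U × U)}
    (hW : ∀ e, Sum.inr e ∈ W → Lk e.1 e.2) {c : U → Bool} (hc : Col H (Sum.inl ⁻¹' W) c)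
    (hl : ∀ u v, Sum.inl u ∈ W → Sum.inl v ∈ W → Lk u v → c u ≠ c v) :
    ∃ c', Col (full H) W c' := by
  classical
  refine ⟨Sum.elim c (fun e => if Sum.inl e.1 ∈ W then !c e.1 else
    if Sum.inl e.2 ∈ W then c e.2 else β e.1), fun K hK hn => ?_⟩
  by_cases h : ∃ e, Sum.inr e ∈ K
  · obtain ⟨e, he⟩ := h
    obtain ⟨x, hx, hne⟩ := hn.exists_ne (Sum.inr e)
    refine ⟨x, hx, _, he, ?_⟩
    have hadj := hK.clq hx he hne
    have hxW := hK.sub hx
    have hL := hW e (hK.sub he)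
    obtain ⟨u, v⟩ := e
    rcases x with x | ⟨u', v'⟩
    · obtain rfl : x = u := hadj
      simp [hxW]
    · obtain ⟨h1, h2, -⟩ := hadj
      simp only at h1 h2 hL
      subst h1 h2
      have := hβ _ _ hL
      by_cases h1 : Sum.inl u' ∈ W <;> by_cases h2 : Sum.inl v' ∈ W
      · have := hl _ _ h2 h1 hL
        simpa [h1, h2] using this.symm
      · simp [h1, h2]
      · simp [h1, h2]
      · simpa [h1, h2] using this.symm
  · push Not at h
    obtain ⟨u, hu, v, hv, huv⟩ := hc (Sum.inl ⁻¹' K) ⟨Set.preimage_mono hK.sub,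
      fun a ha b hb hab => hK.clq ha hb (fun e => hab (Sum.inl_injective e)),
      fun u hu hadj => hK.mx _ hu (by
        rintro (v | e) hv hne
        · exact hadj v hv (fun e => hne (congrArg _ e))
        · exact absurd hv (h e))⟩ (by
      obtain ⟨a, ha, b, hb, hab⟩ := hn
      rcases a with a | a
      · rcases b with b | b
        · exact ⟨a, ha, b, hb, fun e => hab (congrArg _ e)⟩
        · exact absurd hb (h b)
      · exact absurd ha (h a))
    exact ⟨_, hu, _, hv, huv⟩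

theorem Col.pair {H : SimpleGraph U} {W : Set U} {c : U → Bool} (hc : Col H W c) {a b : U}
    (ha : a ∈ W) (hb : b ∈ W) (hab : H.Adj a b) (h : ∀ x, H.Adj a x → H.Adj b x → False) :
    c a ≠ c b := by
  obtain ⟨u, hu, v, hv, huv⟩ := hc {a, b} ⟨Set.pair_subset ha hb, by simpa using fun _ => hab,
    fun x _ hx => by
      by_contra hn
      simp only [Set.mem_insert_iff, Set.mem_singleton_iff, not_or] at hn
      exact h x (hx a (by simp) (Ne.symm hn.1)) (hx b (by simp) (Ne.symm hn.2))⟩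
    (Set.nontrivial_pair hab.ne)
  rcases hu with rfl | rfl <;> rcases hv with rfl | rfl
  · exact absurd rfl huv
  · exact huv
  · exact huv.symm
  · exact absurd rfl huv

theorem col_core {H : SimpleGraph U} {W : Set (U ⊕ U × U)} {c : U ⊕ U × U → Bool}
    (hc : Col (full H) W c) : Col H (Sum.inl ⁻¹' W) (c ∘ Sum.inl) ∧
      ∀ u v, u ≠ v → Sum.inl u ∈ W → Sum.inl v ∈ W → Sum.inr (u, v) ∈ W → Sum.inr (v, u) ∈ W →
        c (Sum.inl u) ≠ c (Sum.inl v) := by
  refine ⟨fun K hK hn => ?_, fun u v huv hu hv h1 h2 => ?_⟩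
  · obtain ⟨_, ⟨a, ha, rfl⟩, _, ⟨b, hb, rfl⟩, hab⟩ := hc (Sum.inl '' K) ⟨by
        rintro _ ⟨a, ha, rfl⟩; exact hK.sub ha, by
        rintro _ ⟨a, ha, rfl⟩ _ ⟨b, hb, rfl⟩ hab
        exact hK.clq ha hb (fun e => hab (congrArg _ e)), by
        rintro (u | e) hu hadj
        · exact ⟨u, hK.mx u hu (fun v hv hne =>
            hadj _ ⟨v, hv, rfl⟩ (fun e => hne (Sum.inl_injective e))), rfl⟩
        · obtain ⟨a, ha, b, hb, hab⟩ := hn
          have h1 : a = e.1 := hadj _ ⟨a, ha, rfl⟩ (by simp)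
          have h2 : b = e.1 := hadj _ ⟨b, hb, rfl⟩ (by simp)
          exact absurd (h1.trans h2.symm) hab⟩ (hn.image Sum.inl_injective)
    exact ⟨a, ha, b, hb, hab⟩
  · have key : ∀ u v, u ≠ v → Sum.inl u ∈ W → Sum.inr (u, v) ∈ W →
        c (Sum.inr (u, v)) ≠ c (Sum.inl u) := by
      intro u v huv hu h1
      refine hc.pair h1 hu rfl ?_
      rintro (x | e) h3 h4
      · obtain rfl : x = u := h3
        exact H.irrefl h4
      · exact huv (h4.trans h3.2.1.symm)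
    have a1 := key u v huv hu h1
    have a2 := key v u huv.symm hv h2
    have a3 : c (Sum.inr (u, v)) ≠ c (Sum.inr (v, u)) := by
      refine hc.pair h1 h2 ⟨rfl, rfl, huv⟩ ?_
      rintro (x | e) h3 h4
      · exact huv ((show x = u from h3).symm.trans h4)
      · exact huv (h3.1.trans h4.1.symm)
    revert a1 a2 a3
    cases c (Sum.inr (u, v)) <;> cases c (Sum.inr (v, u)) <;> cases c (Sum.inl u) <;>
      cases c (Sum.inl v) <;> simp

end Pool.Agent.Lib.MP_65ccf5_lc
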