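import Mathlib
import Pool.Prelude.Def_F_458e953d

/-!
Strongly `k`-divisible graphs, their recognition problem for `k = 2`, and the class `Π₃ᵖ`.
-/

set_option autoImplicit false

namespace Pool.Agent.Lib.MP_65ccf5_lc

/-- `H` has a `k`-clique-colouring: a partition of the vertices into `k` parts (the fibres of `c`)
such that no part contains a maximal clique with at least two vertices. -/
def CliqueColourable {V : Type} (k : ℕ) (H : SimpleGraph V) : Prop :=
  ∃ c : V → Fin k, ∀ K : Set V, Maximal H.IsClique K → K.Nontrivial → ∀ i, ¬ K ⊆ c ⁻¹' {i}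

/-- Every induced subgraph of `G` has a `k`-clique-colouring. -/
def StronglyDivisible {V : Type} (k : ℕ) (G : SimpleGraph V) : Prop :=
  ∀ W : Set V, CliqueColourable k (G.induce W)

open Classical in
/-- The recognition problem: codes of adjacency matrices of strongly `2`-divisible graphs. -/
noncomputable def SD2 : N68a2faeb.DecisionProblem := fun s =>
  decide (∃ (n : ℕ) (G : SimpleGraph (Fin n)),
    s = N487b59b3.bitEncode (List.ofFn fun i => List.ofFn fun j => decide (G.Adj i j)) ∧
      StronglyDivisible 2 G)

/-- The class `Π₃ᵖ` of the polynomial hierarchy. -/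
def Pi3 : N68a2faeb.DecisionComplexityClass :=
  { L | ∃ (p : Polynomial ℕ) (R : List Bool × List Bool × List Bool × List Bool → Bool),
      N68a2faeb.IsPolyTime R ∧
      ∀ x, L x ↔ ∀ a : List Bool, a.length ≤ p.eval x.length →
        ∃ b : List Bool, b.length ≤ p.eval x.length ∧
          ∀ c : List Bool, c.length ≤ p.eval x.length → R (x, a, b, c) }

end Pool.Agent.Lib.MP_65ccf5_lc
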