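import Pool.Agent.Lib.MP_65ccf5_lc.Basic
import Pool.Agent.Lib.Common.CookLevin.Cnf

/-!
The core graph of the reduction and its clique colourings.
-/

set_option autoImplicit false

namespace Pool.Agent.Lib.MP_65ccf5_lc

open Pool.Agent.Lib.Common.CookLevin

/-- Vertices of the core graph. -/
inductive Vx : Type
  | lit : Var → Bool → Vx
  | m : ℕ → Vx
  | cl : ℕ → List (Var × Bool) → Vx
  | p : Var → Vx
  | q : Var → Vx
  | w : Vx

open Vx

/-- The non-edges, listed in one direction. -/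
def Non (L : ℕ) : Vx → Vx → Prop
  | lit v _, lit v' _ => v = v'
  | cl _ _, cl _ _ => True
  | lit v b, cl _ C => (v, b) ∈ C
  | m k, p _ => k = 0
  | m k, q _ => k = L
  | m k, w => k = L
  | _, _ => False

/-- The core graph. -/
def core (L : ℕ) : SimpleGraph Vx where
  Adj u v := u ≠ v ∧ ¬ Non L u v ∧ ¬ Non L v u
  symm := ⟨fun _ _ h => ⟨h.1.symm, h.2.2, h.2.1⟩⟩
  loopless := ⟨fun _ h => h.1 rfl⟩

/-- The links, listed in one direction. -/
def Lk0 : Vx → Vx → Prop
  | lit v b, p v' => b = true ∧ v = v' ∧ v'.1 = 1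
  | p v, q v' => v = v'
  | q v, lit v' b => b = false ∧ v = v' ∧ v'.1 = 1
  | w, m k => k = 0
  | w, lit v _ => v.1 ≠ 1
  | m k, cl j _ => k = j ∨ k = j + 1
  | _, _ => False

/-- The links. -/
def Lk (u v : Vx) : Prop := Lk0 u v ∨ Lk0 v u

/-- The colouring attached to values of the existential variables. -/
def colA (y : Var → Bool) : Vx → Bool
  | lit v b => decide (v.1 = 1) && (b != y v)
  | m _ => false
  | cl _ _ => true
  | p v => y v
  | q v => !y v
  | w => true

/-- The colouring attached to a break of the chain. -/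
def colB (k₀ : ℕ) : Vx → Bool
  | lit v b => decide (v.1 = 1) && b
  | m k => decide (k₀ < k)
  | cl k _ => decide (k < k₀)
  | p _ => false
  | q _ => true
  | w => true

/-- Literal and clause vertices. -/
def low : Vx → Bool
  | lit _ _ => true
  | cl _ _ => true
  | _ => false

theorem lk_of_lk0 {c : Vx → Bool} {W : Set Vx}
    (h : ∀ u ∈ W, ∀ v ∈ W, Lk0 u v → c u ≠ c v) : ∀ u ∈ W, ∀ v ∈ W, Lk u v → c u ≠ c v := by
  rintro u hu v hv (h' | h')
  · exact h u hu v hv h'
  · exact (h v hv u hu h').symm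

theorem colA_lk0 (y : Var → Bool) (u v : Vx) (h : Lk0 u v) : colA y u ≠ colA y v := by
  cases u <;> cases v <;> simp only [Lk0] at h <;> simp_all [colA]

theorem colA_lk (y : Var → Bool) (u v : Vx) (h : Lk u v) : colA y u ≠ colA y v :=
  lk_of_lk0 (W := Set.univ) (fun u _ v _ => colA_lk0 y u v) u trivial v trivial h

theorem colB_lk {k₀ : ℕ} {W : Set Vx} (hW : m k₀ ∈ W → ∀ C, cl k₀ C ∉ W) :
    ∀ u ∈ W, ∀ v ∈ W, Lk u v → colB k₀ u ≠ colB k₀ v := by
  refine lk_of_lk0 (fun u hu v hv h => ?_)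
  cases u <;> cases v <;> simp only [Lk0] at h
  case m.cl k j C =>
    rcases h with rfl | rfl
    · have : k ≠ k₀ := by rintro rfl; exact hW hu _ hv
      simp only [colB, ne_eq, decide_eq_decide]
      omega
    · simp only [colB, ne_eq, decide_eq_decide]
      omega
  all_goals simp_all [colB]

variable {L : ℕ} {W K : Set Vx}

theorem non_of {u v : Vx} (h1 : v ≠ u) (h2 : ¬ (core L).Adj v u) : Non L v u ∨ Non L u v := by
  by_contra h
  exact h2 ⟨h1, fun a => h (Or.inl a), fun a => h (Or.inr a)⟩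

theorem mem_m (hK : MC (core L) W K) {k : ℕ} (hk : m k ∈ W) :
    m k ∈ K ∨ (k = 0 ∧ ∃ v, p v ∈ K) ∨ (k = L ∧ ((∃ v, q v ∈ K) ∨ w ∈ K)) := by
  rcases hK.mem_or hk with h | ⟨v, hv, h1, h2⟩
  · exact Or.inl h
  · have := non_of h1 h2
    cases v <;> simp only [Non, false_or, or_false] at this
    · exact Or.inr (Or.inl ⟨this, _, hv⟩)
    · exact Or.inr (Or.inr ⟨this, Or.inl ⟨_, hv⟩⟩)
    · exact Or.inr (Or.inr ⟨this, Or.inr hv⟩)

theorem mem_p (hK : MC (core L) W K) {x : Var} (hk : p x ∈ W) : p x ∈ K ∨ m 0 ∈ K := by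
  rcases hK.mem_or hk with h | ⟨v, hv, h1, h2⟩
  · exact Or.inl h
  · have := non_of h1 h2
    cases v <;> simp only [Non, or_false] at this
    exact Or.inr (this ▸ hv)

theorem mem_q (hK : MC (core L) W K) {x : Var} (hk : q x ∈ W) : q x ∈ K ∨ m L ∈ K := by
  rcases hK.mem_or hk with h | ⟨v, hv, h1, h2⟩
  · exact Or.inl h
  · have := non_of h1 h2
    cases v <;> simp only [Non, or_false] at this
    exact Or.inr (this ▸ hv)

theorem mem_w (hK : MC (core L) W K) (hk : w ∈ W) : w ∈ K ∨ m L ∈ K := by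
  rcases hK.mem_or hk with h | ⟨v, hv, h1, h2⟩
  · exact Or.inl h
  · have := non_of h1 h2
    cases v <;> simp only [Non, or_false] at this
    exact Or.inr (this ▸ hv)

theorem mem_low (hK : MC (core L) W K) {u : Vx} (hu : u ∈ W) : ∃ v ∈ K, low v = low u := by
  rcases hK.mem_or hu with h | ⟨v, hv, h1, h2⟩
  · exact ⟨u, h, rfl⟩
  · refine ⟨v, hv, ?_⟩
    have := non_of h1 h2
    cases v <;> cases u <;> simp only [Non, or_self] at this <;> rfl

theorem col_legit (hL : 2 ≤ L) (h1 : m 1 ∈ W) {y : Var → Bool}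
    (hy : ∀ z : Var → Bool, (∀ v, v.1 = 1 → z v = y v) → ∃ k C, cl k C ∈ W ∧ ¬ Sat z C) :
    Col (core L) W (colA y) := by
  classical
  refine col_of (fun K hK _ => ⟨?_, ?_⟩)
  · rcases mem_m hK h1 with h | h | h
    · exact ⟨_, h, rfl⟩
    · omega
    · omega
  · by_contra hn
    push Not at hn
    obtain ⟨k, C, hC, hs⟩ := hy (fun v => if v.1 = 1 then y v else decide (lit v true ∈ K))
      (fun v hv => by simp [hv])
    rcases hK.mem_or hC with h | ⟨v, hv, h1, h2⟩
    · exact hn _ h rfl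
    · have := non_of h1 h2
      have h3 := hn v hv
      cases v <;> simp only [Non, or_false, or_self] at this
      · rename_i x b
        refine hs ⟨_, this, ?_⟩
        by_cases hx : x.1 = 1
        · have h4 : b = y x := by simpa [hx, colA] using h3
          simp [hx, h4]
        · cases b
          · simp only [hx, if_false, decide_eq_false_iff_not]
            intro h4
            exact (hK.clq hv h4 (by simp)).2.1 rfl
          · simp [hx, hv]
      · exact h3 rfl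

theorem col_break (hL : 1 ≤ L) {k₀ : ℕ} (hk : k₀ < L ∨ m L ∉ W) (h0 : m 0 ∈ W ∨ ∃ v, p v ∈ W)
    (h1 : m L ∈ W ∨ (∃ v, q v ∈ W) ∨ w ∈ W) : Col (core L) W (colB k₀) := by
  refine col_of (fun K hK _ => ⟨?_, ?_⟩)
  · rcases h0 with h | ⟨v, h⟩
    · rcases mem_m hK h with h | ⟨_, v, h⟩ | h
      · exact ⟨_, h, by simp [colB]⟩
      · exact ⟨_, h, rfl⟩
      · omega
    · rcases mem_p hK h with h | h
      · exact ⟨_, h, rfl⟩
      · exact ⟨_, h, by simp [colB]⟩
  · have hr : m L ∈ K → ∃ v ∈ K, colB k₀ v = true := fun h =>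
      ⟨_, h, by simpa [colB] using hk.resolve_right (fun h' => h' (hK.sub h))⟩
    rcases h1 with h | ⟨v, h⟩ | h
    · rcases mem_m hK h with h | h | ⟨_, ⟨v, h⟩ | h⟩
      · exact hr h
      · omega
      · exact ⟨_, h, rfl⟩
      · exact ⟨_, h, rfl⟩
    · exact (mem_q hK h).elim (fun h => ⟨_, h, rfl⟩) hr
    · exact (mem_w hK h).elim (fun h => ⟨_, h, rfl⟩) hr

theorem col_point {U : Type} {H : SimpleGraph U} {W : Set U} (u : U)
    (h : ∀ K, MC H W K → K.Nontrivial → u ∈ K) : ∃ c, Col H W c := by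
  classical
  refine ⟨fun x => decide (x ≠ u), col_of (fun K hK hn => ⟨⟨u, h K hK hn, by simp⟩, ?_⟩)⟩
  obtain ⟨x, hx, hne⟩ := hn.exists_ne u
  exact ⟨x, hx, by simpa using hne⟩

theorem col_star {U : Type} {H : SimpleGraph U} {W : Set U} (c : U)
    (h : ∀ u ∈ W, ∀ v ∈ W, u ≠ v → u ≠ c → v ≠ c → H.Adj u v) : ∃ c, Col H W c := by
  by_cases h1 : ∃ u ∈ W, u ≠ c ∧ H.Adj c u
  · obtain ⟨u, hu, hne, hadj⟩ := h1
    refine col_point u (fun K hK _ => hK.mx u hu (fun v hv hvu => ?_))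
    by_cases hvc : v = c
    · rw [hvc]; exact hadj
    · exact h v (hK.sub hv) u hu hvu hvc hne
  · push Not at h1
    by_cases h2 : ∃ u ∈ W, u ≠ c
    · obtain ⟨u, hu, hne⟩ := h2
      refine col_point u (fun K hK hn => hK.mx u hu (fun v hv hvu => ?_))
      by_cases hvc : v = c
      · subst hvc
        obtain ⟨x, hx, hxv⟩ := hn.exists_ne v
        exact absurd (hK.clq hv hx hxv.symm) (h1 x (hK.sub hx) hxv)
      · exact h v (hK.sub hv) u hu hvu hvc hne
    · push Not at h2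
      refine col_point c (fun K hK hn => ?_)
      obtain ⟨x, hx, -⟩ := hn
      exact h2 x (hK.sub hx) ▸ hx

theorem col_low (hW : ∀ u ∈ W, low u = true) : ∃ c, Col (core L) W c := by
  classical
  by_cases h : ∃ v b, lit v b ∈ W
  · obtain ⟨v₀, b₀, h₀⟩ := h
    let c : Vx → Bool := fun u => match u with
      | lit v _ => decide (v ≠ v₀)
      | cl k C => decide (∃ b, lit v₀ b ∈ W ∧ (v₀, b) ∉ C)
      | _ => true
    refine ⟨c, col_of (fun K hK hn => ?_)⟩
    by_cases h1 : ∃ k C, cl k C ∈ K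
    · obtain ⟨k, C, hC⟩ := h1
      have h2 : ∀ x ∈ K, x ≠ cl k C → ∃ v b, x = lit v b ∧ (v, b) ∉ C := by
        intro x hx hne
        have h3 := hK.clq hx hC hne
        have h4 := hW x (hK.sub hx)
        cases x <;> simp only [low, Bool.false_eq_true] at h4
        · exact ⟨_, _, rfl, h3.2.1⟩
        · exact absurd trivial h3.2.1
      by_cases h3 : ∃ b, lit v₀ b ∈ W ∧ (v₀, b) ∉ C
      · refine ⟨?_, _, hC, by simpa [c] using h3⟩
        obtain ⟨b, hb, hb'⟩ := h3
        rcases hK.mem_or hb with h | ⟨x, hx, h4, h5⟩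
        · exact ⟨_, h, by simp [c]⟩
        · have h6 := non_of h4 h5
          by_cases hxc : x = cl k C
          · subst hxc
            simp [Non, hb'] at h6
          · obtain ⟨v, b', rfl, -⟩ := h2 x hx hxc
            refine ⟨_, hx, ?_⟩
            simp only [Non] at h6
            rcases h6 with rfl | rfl <;> simp [c]
      · refine ⟨⟨_, hC, by simpa [c] using h3⟩, ?_⟩
        obtain ⟨x, hx, hne⟩ := hn.exists_ne (cl k C)
        obtain ⟨v, b, rfl, hb⟩ := h2 x hx hne
        refine ⟨_, hx, ?_⟩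
        simp only [c, decide_eq_true_eq]
        rintro rfl
        exact h3 ⟨b, hK.sub hx, hb⟩
    · push Not at h1
      have h2 : ∀ x ∈ K, ∃ v b, x = lit v b := by
        intro x hx
        have h4 := hW x (hK.sub hx)
        cases x <;> simp only [low, Bool.false_eq_true] at h4
        · exact ⟨_, _, rfl⟩
        · exact absurd hx (h1 _ _)
      constructor
      · rcases hK.mem_or h₀ with h | ⟨x, hx, h4, h5⟩
        · exact ⟨_, h, by simp [c]⟩
        · have h6 := non_of h4 h5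
          obtain ⟨v, b', rfl⟩ := h2 x hx
          refine ⟨_, hx, ?_⟩
          simp only [Non] at h6
          rcases h6 with rfl | rfl <;> simp [c]
      · obtain ⟨x, hx, x', hx', hne⟩ := hn
        obtain ⟨v, b, rfl⟩ := h2 x hx
        obtain ⟨v', b', rfl⟩ := h2 x' hx'
        have h3 : v ≠ v' := (hK.clq hx hx' hne).2.1
        by_cases h4 : v = v₀
        · exact ⟨_, hx', by simpa [c, ← h4] using h3.symm⟩
        · exact ⟨_, hx, by simpa [c] using h4⟩
  · push Not at h
    refine ⟨fun _ => true, fun K hK hn => ?_⟩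
    obtain ⟨x, hx, x', hx', hne⟩ := hn
    have h1 := hK.clq hx hx' hne
    have h2 := hW x (hK.sub hx)
    have h3 := hW x' (hK.sub hx')
    have h4 := hK.sub hx
    have h5 := hK.sub hx'
    cases x <;> simp only [low, Bool.false_eq_true] at h2
    · exact absurd h4 (h _ _)
    · cases x' <;> simp only [low, Bool.false_eq_true] at h3
      · exact absurd h5 (h _ _)
      · exact absurd trivial h1.2.1

theorem core_col (hL : 2 ≤ L) (W : Set Vx)
    (hq : (∀ k < L, ∃ C, cl k C ∈ W) → ∃ y : Var → Bool, ∀ z : Var → Bool,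
      (∀ v, v.1 = 1 → z v = y v) → ∃ k C, cl k C ∈ W ∧ ¬ Sat z C) :
    ∃ c, Col (core L) W c ∧ ∀ u ∈ W, ∀ v ∈ W, Lk u v → c u ≠ c v := by
  by_cases hA : m L ∈ W ∧ ∀ k < L, m k ∈ W ∧ ∃ C, cl k C ∈ W
  · obtain ⟨y, hy⟩ := hq (fun k hk => (hA.2 k hk).2)
    exact ⟨_, col_legit hL (hA.2 1 (by omega)).1 hy, fun u _ v _ => colA_lk y u v⟩
  by_cases hB : (m 0 ∈ W ∨ ∃ v, p v ∈ W) ∧ (m L ∈ W ∨ (∃ v, q v ∈ W) ∨ w ∈ W)
  · by_cases hr : m L ∈ W
    · push Not at hA
      obtain ⟨k₀, hk, hk'⟩ := hA hr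
      exact ⟨_, col_break (by omega) (Or.inl hk) hB.1 hB.2, colB_lk hk'⟩
    · exact ⟨_, col_break (k₀ := L) (by omega) (Or.inr hr) hB.1 hB.2,
        colB_lk (fun h => absurd h hr)⟩
  have hlk : ∀ u ∈ W, ∀ v ∈ W, Lk u v → low u ≠ low v := by
    refine lk_of_lk0 (fun u hu v hv h => ?_)
    cases u <;> cases v <;> simp only [Lk0] at h
    case p.q => exact absurd ⟨Or.inr ⟨_, hu⟩, Or.inr (Or.inl ⟨_, hv⟩)⟩ hB
    case w.m => exact absurd ⟨Or.inl (h ▸ hv), Or.inr (Or.inr hu)⟩ hB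
    all_goals simp [low]
  by_cases h1 : ∀ u ∈ W, low u = true
  · obtain ⟨c, hc⟩ := col_low (L := L) h1
    exact ⟨c, hc, fun u hu v hv h => absurd ((h1 u hu).trans (h1 v hv).symm) (hlk u hu v hv h)⟩
  by_cases h2 : ∀ u ∈ W, low u = false
  · have : ∃ c, Col (core L) W c := by
      rcases not_and_or.1 hB with h | h
      · push Not at h
        refine col_star (m L) (fun u hu v hv huv h3 h4 => ⟨huv, ?_⟩)
        have h5 := h2 u hu
        have h6 := h2 v hv
        cases u <;> cases v <;> simp_all [Non, low]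
      · push Not at h
        refine col_star (m 0) (fun u hu v hv huv h3 h4 => ⟨huv, ?_⟩)
        have h5 := h2 u hu
        have h6 := h2 v hv
        cases u <;> cases v <;> simp_all [Non, low]
    obtain ⟨c, hc⟩ := this
    exact ⟨c, hc, fun u hu v hv h => absurd ((h2 u hu).trans (h2 v hv).symm) (hlk u hu v hv h)⟩
  push Not at h1 h2
  obtain ⟨u, hu, hu'⟩ := h1
  obtain ⟨v, hv, hv'⟩ := h2
  refine ⟨low, col_of (fun K hK _ => ⟨?_, ?_⟩), hlk⟩
  · obtain ⟨x, hx, e⟩ := mem_low hK hu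
    exact ⟨x, hx, by simpa [e] using hu'⟩
  · obtain ⟨x, hx, e⟩ := mem_low hK hv
    exact ⟨x, hx, by simpa [e] using hv'⟩

/-- The core vertices kept by a selection of clauses. -/
def Kept (L : ℕ) (sel : ℕ → Clause) (Vs : Set Var) : Vx → Prop
  | lit v _ => v ∈ Vs
  | m k => k ≤ L
  | cl k C => k < L ∧ C = sel k
  | p v => v ∈ Vs ∧ v.1 = 1
  | q v => v ∈ Vs ∧ v.1 = 1
  | w => True

theorem core_not_col (hL : 1 ≤ L) {sel : ℕ → Clause} {Vs : Set Var}
    (hV : ∀ k < L, ∀ l ∈ sel k, l.1 ∈ Vs) {c : Vx → Bool}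
    (hc : Col (core L) {u | Kept L sel Vs u} c)
    (hl : ∀ u v, Kept L sel Vs u → Kept L sel Vs v → Lk0 u v → c u ≠ c v) :
    ∃ y : Var → Bool, ∀ z : Var → Bool, (∀ v, v.1 = 1 → z v = y v) → ∃ k < L, ¬ Sat z (sel k) := by
  refine ⟨fun v => decide (c (lit v true) = c (m 0)), fun z hz => ?_⟩
  by_contra hn
  push Not at hn
  have hm : ∀ k ≤ L, c (m k) = c (m 0) := by
    intro k
    induction k with
    | zero => intro _; rfl
    | succ k ih =>
      intro hk
      have a1 := hl (m k) (cl k (sel k)) (by simp [Kept]; omega) ⟨by omega, rfl⟩ (Or.inl rfl)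
      have a2 := hl (m (k + 1)) (cl k (sel k)) hk ⟨by omega, rfl⟩ (Or.inr rfl)
      rw [← ih (by omega)]
      revert a1 a2
      cases c (m k) <;> cases c (m (k + 1)) <;> cases c (cl k (sel k)) <;> simp
  have hlit : ∀ v ∈ Vs, c (lit v (z v)) = c (m 0) := by
    intro v hv
    by_cases h : v.1 = 1
    · have a1 := hl (lit v true) (p v) hv ⟨hv, h⟩ ⟨rfl, rfl, h⟩
      have a2 := hl (p v) (q v) ⟨hv, h⟩ ⟨hv, h⟩ rfl
      have a3 := hl (q v) (lit v false) ⟨hv, h⟩ hv ⟨rfl, rfl, h⟩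
      rw [hz v h]
      by_cases h' : c (lit v true) = c (m 0)
      · simp [h']
      · simp only [h', decide_false]
        revert a1 a2 a3 h'
        cases c (lit v true) <;> cases c (lit v false) <;> cases c (p v) <;> cases c (q v) <;>
          cases c (m 0) <;> simp
    · have a1 := hl w (m 0) trivial (Nat.zero_le _) rfl
      have a2 := hl w (lit v (z v)) trivial hv h
      revert a1 a2
      cases c (lit v (z v)) <;> cases c w <;> cases c (m 0) <;> simp
  obtain ⟨a, ha, b, hb, hab⟩ := hc {u | (∃ k ≤ L, u = m k) ∨ ∃ v ∈ Vs, u = lit v (z v)} ⟨by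
      rintro _ (⟨k, hk, rfl⟩ | ⟨v, hv, rfl⟩)
      · exact hk
      · exact hv, by
      rintro _ (⟨k, hk, rfl⟩ | ⟨v, hv, rfl⟩) _ (⟨k', hk', rfl⟩ | ⟨v', hv', rfl⟩) hne <;>
        refine ⟨hne, ?_⟩ <;> simp only [Non, not_false_eq_true, and_self]
      exact ⟨by rintro rfl; exact hne rfl, by rintro rfl; exact hne rfl⟩, by
      intro u hu hadj
      cases u with
      | lit v b =>
        by_cases h : b = z v
        · exact Or.inr ⟨v, hu, by rw [h]⟩
        · exact absurd rfl (hadj _ (Or.inr ⟨v, hu, rfl⟩) (by simpa using Ne.symm h)).2.1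
      | m k => exact Or.inl ⟨k, hu, rfl⟩
      | cl k C =>
        obtain ⟨hk, rfl⟩ := hu
        obtain ⟨l, hl, e⟩ := hn k hk
        exact absurd (by rw [e]; exact hl)
          (hadj _ (Or.inr ⟨l.1, hV k hk l hl, rfl⟩) (by simp)).2.1
      | p v => exact absurd rfl (hadj _ (Or.inl ⟨0, Nat.zero_le _, rfl⟩) (by simp)).2.1
      | q v => exact absurd rfl (hadj _ (Or.inl ⟨L, le_rfl, rfl⟩) (by simp)).2.1
      | w => exact absurd rfl (hadj _ (Or.inl ⟨L, le_rfl, rfl⟩) (by simp)).2.1⟩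
    ⟨m 0, Or.inl ⟨0, Nat.zero_le _, rfl⟩, m L, Or.inl ⟨L, le_rfl, rfl⟩, by simp; omega⟩
  have key : ∀ u ∈ {u | (∃ k ≤ L, u = m k) ∨ ∃ v ∈ Vs, u = lit v (z v)}, c u = c (m 0) := by
    rintro _ (⟨k, hk, rfl⟩ | ⟨v, hv, rfl⟩)
    · exact hm k hk
    · exact hlit v hv
  exact hab ((key a ha).trans (key b hb).symm)

end Pool.Agent.Lib.MP_65ccf5_lc
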