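import Pool.Agent.Lib.MP_65ccf5_lc.Red

/-!
Recognition of strongly `2`-divisible graphs lies in `Π₃ᵖ`.
-/

set_option autoImplicit false

namespace Pool.Agent.Lib.MP_65ccf5_lc

open Pool.Agent.Lib.MP_acf5a6_lc N487b59b3

theorem getD_eq_filter {β : Type} (l : List β) (i : ℕ) (d : β) :
    ((l.zipIdx.filter (fun x => decide (x.2 = i))).map (fun x => x.1)).headD d = l.getD i d := by
  have key : ∀ (l : List β) (k i : ℕ), (((l.zipIdx k).filter
      (fun x => decide (x.2 = i + k))).map (fun x => x.1)).headD d = l.getD i d := by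
    intro l
    induction l with
    | nil => simp
    | cons a l ih =>
      intro k i
      cases i with
      | zero => simp
      | succ i =>
        have := ih (k + 1) i
        rw [List.zipIdx_cons, List.filter_cons_of_neg (by simp), List.getD_cons_succ, ← this,
          show i + 1 + k = i + (k + 1) by omega]
  exact key l 0 i

@[fun_prop] theorem getD_PT {α β : Type} [N487b59b3 α] [N487b59b3 β] {l : α → List β} {i : α → ℕ}
    {d : α → β} (hl : PT l) (hi : PT i) (hd : PT d) : PT (fun a => (l a).getD (i a) (d a)) :=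
  PT.of_eq (f := fun a => (((l a).zipIdx.filter (fun x => decide (x.2 = i a))).map
    (fun x => x.1)).headD (d a)) (by fun_prop) (fun _ => getD_eq_filter _ _ _)

theorem chk_bool : Chk Bool :=
  ⟨fun r => decide (r.s = [true]) || decide (r.s = [false]), by fun_prop, fun r => by
    simp only [Bool.or_eq_true, decide_eq_true_eq, enc_bool]
    constructor
    · rintro (h | h) <;> exact ⟨_, h.symm⟩
    · rintro ⟨b, h⟩; cases b <;> simp [← h]⟩

/-- Matrix entries. -/
def ent (M : List (List Bool)) (i j : ℕ) : Bool := (M.getD i []).getD j false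

/-- The list is the adjacency matrix of a simple graph. -/
def valid (M : List (List Bool)) : Bool :=
  M.all (fun r => decide (r.length = M.length)) &&
    (urange (ulen M)).all (fun i => !ent M i i &&
      (urange (ulen M)).all (fun j => decide (ent M i j = ent M j i)))

/-- `c` codes a monochromatic maximal clique with at least two vertices inside `a`. -/
def bad (M : List (List Bool)) (a b c : List Bool) : Bool :=
  (urange (ulen M)).all (fun i => !c.getD i false || a.getD i false) &&
  (urange (ulen M)).all (fun i => (urange (ulen M)).all (fun j =>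
    !c.getD i false || !c.getD j false || decide (i = j) || ent M i j)) &&
  (urange (ulen M)).all (fun u => !a.getD u false || c.getD u false ||
    !(urange (ulen M)).all (fun v => !c.getD v false || decide (v = u) || ent M v u)) &&
  !(urange (ulen M)).all (fun i => (urange (ulen M)).all (fun j =>
    !c.getD i false || !c.getD j false || decide (i = j))) &&
  (urange (ulen M)).all (fun i => (urange (ulen M)).all (fun j =>
    !c.getD i false || !c.getD j false || decide (b.getD i false = b.getD j false)))

theorem length_adjM {n : ℕ} (G : SimpleGraph (Fin n)) : (adjM G).length = n := by simp [adjM]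

theorem ent_adjM {n : ℕ} (G : SimpleGraph (Fin n)) (i j : Fin n) :
    ent (adjM G) i j = true ↔ G.Adj i j := by
  simp [ent, adjM, List.getD_eq_getElem?_getD]

theorem valid_iff (M : List (List Bool)) :
    valid M = true ↔ ∃ (n : ℕ) (G : SimpleGraph (Fin n)), M = adjM G := by
  simp only [valid, urange, ulen, Bool.and_eq_true, List.all_eq_true, decide_eq_true_eq,
    List.mem_range, Bool.not_eq_true']
  constructor
  · rintro ⟨h1, h2⟩
    refine ⟨M.length, ⟨fun i j => ent M i j = true, ⟨fun i j h => ?_⟩, ⟨fun i h => ?_⟩⟩, ?_⟩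
    · rw [← (h2 i i.2).2 j j.2]; exact h
    · simp [(h2 i i.2).1] at h
    · refine List.ext_getElem (by simp [adjM]) (fun i h3 h4 => ?_)
      have h5 := h1 _ (List.getElem_mem h3)
      refine List.ext_getElem (by simp [adjM, h5]) (fun j h6 h7 => ?_)
      simp [adjM, ent, List.getD_eq_getElem?_getD, h3, h6]
  · rintro ⟨n, G, rfl⟩
    rw [length_adjM]
    refine ⟨fun r hr => ?_, fun i hi => ⟨?_, fun j hj => ?_⟩⟩
    · simp only [adjM, List.mem_ofFn] at hr
      obtain ⟨i, rfl⟩ := hr
      simp
    · have := (ent_adjM G ⟨i, hi⟩ ⟨i, hi⟩).not.2 (G.irrefl)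
      simpa using this
    · rw [Bool.eq_iff_iff]
      exact (ent_adjM G ⟨i, hi⟩ ⟨j, hj⟩).trans
        ((G.adj_comm _ _).trans (ent_adjM G ⟨j, hj⟩ ⟨i, hi⟩).symm)

theorem bad_iff {n : ℕ} (G : SimpleGraph (Fin n)) (a b c : List Bool) :
    bad (adjM G) a b c = true ↔
      MC G {i | a.getD i false = true} {i | c.getD i false = true} ∧
      {i : Fin n | c.getD i false = true}.Nontrivial ∧
      ¬ ∃ u ∈ {i : Fin n | c.getD i false = true}, ∃ v ∈ {i : Fin n | c.getD i false = true},
        b.getD u false ≠ b.getD v false := by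
  have hall : ∀ f : ℕ → Bool, (urange (ulen (adjM G))).all f = true ↔ ∀ i : Fin n, f i = true := by
    intro f
    simp only [urange, ulen, length_adjM, List.all_eq_true, List.mem_range]
    exact ⟨fun h i => h i i.2, fun h i hi => h ⟨i, hi⟩⟩
  simp only [bad, Bool.and_eq_true, Bool.not_eq_true', ← Bool.not_eq_true, hall, Bool.or_eq_true,
    decide_eq_true_eq, ent_adjM, Fin.val_inj]
  constructor
  · rintro ⟨⟨⟨⟨h1, h2⟩, h3⟩, h4⟩, h5⟩
    refine ⟨⟨fun i hi => (h1 i).resolve_left (not_not.2 hi), fun i hi j hj hij => ?_,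
      fun u hu h => ?_⟩, ?_, ?_⟩
    · have := h2 i j
      simp only [Set.mem_ofPred_eq] at hi hj
      tauto
    · have h6 := h3 u
      simp only [Set.mem_ofPred_eq] at hu h ⊢
      rcases h6 with (h6 | h6) | h6
      · exact absurd hu h6
      · exact h6
      · exact absurd (fun v => by have := h v; tauto) h6
    · push Not at h4
      obtain ⟨i, j, ⟨hi, hj⟩, hij⟩ := h4
      exact ⟨i, hi, j, hj, hij⟩
    · rintro ⟨u, hu, v, hv, huv⟩
      have := h5 u v
      simp only [Set.mem_ofPred_eq] at hu hv
      tauto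
  · rintro ⟨⟨h1, h2, h3⟩, ⟨i, hi, j, hj, hij⟩, h5⟩
    refine ⟨⟨⟨⟨fun i => ?_, fun i j => ?_⟩, fun u => ?_⟩, fun h => ?_⟩, fun i j => ?_⟩
    · have := @h1 i
      simp only [Set.mem_ofPred_eq] at this
      tauto
    · have := @h2 i
      simp only [Set.mem_ofPred_eq] at this
      tauto
    · by_contra hn
      push Not at hn
      exact hn.1.2 (h3 u hn.1.1 (fun v hv hne => by
        have := hn.2 v
        simp only [Set.mem_ofPred_eq] at hv
        tauto))
    · have := h i j
      simp only [Set.mem_ofPred_eq] at hi hj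
      tauto
    · by_contra hn
      push Not at hn
      exact h5 ⟨i, hn.1.1, j, hn.1.2, hn.2⟩

theorem getD_ofFn {n : ℕ} (f : Fin n → Bool) (i : Fin n) : (List.ofFn f).getD i false = f i := by
  simp [List.getD_eq_getElem?_getD]

theorem mem_pi3 : SD2 ∈ Pi3 := by
  classical
  obtain ⟨F, hF, h1, h2⟩ := chk_bool.list.list.parse (g := fun M => (valid M, M))
    (by unfold valid ent; fun_prop) (false, [])
  refine ⟨Polynomial.X, fun s => (F ⟨s.1⟩).1 && !bad (F ⟨s.1⟩).2 s.2.1 s.2.2.1 s.2.2.2,
    PT.isPolyTime ?_, fun x => ?_⟩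
  · have := PT.comp hF (PT.rawMk (f := fun s : List Bool × List Bool × List Bool × List Bool => s.1)
      (by fun_prop))
    unfold bad ent
    fun_prop
  simp only [Polynomial.eval_X, Bool.and_eq_true, Bool.not_eq_true', ← Bool.not_eq_true]
  by_cases hx : ∃ (n : ℕ) (G : SimpleGraph (Fin n)), x = bitEncode (adjM G)
  · obtain ⟨n, G, rfl⟩ := hx
    have e : F ⟨bitEncode (adjM G)⟩ = (true, adjM G) := by
      rw [← (valid_iff _).2 ⟨n, G, rfl⟩]
      exact h1 _
    have hn : ∀ f : Fin n → Bool, (List.ofFn f).length ≤ (bitEncode (adjM G)).length := by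
      intro f
      simpa [length_adjM, sz] using length_le_sz (adjM G)
    simp only [e, true_and, bad_iff, sd2_iff, sd_iff]
    constructor
    · intro h a _
      obtain ⟨c, hc⟩ := h {i | a.getD i false = true}
      refine ⟨List.ofFn c, hn _, fun k _ h => h.2.2 ?_⟩
      simpa only [getD_ofFn] using hc _ h.1 h.2.1
    · intro h W
      obtain ⟨b, _, hb⟩ := h (List.ofFn fun i => decide (i ∈ W)) (hn _)
      refine ⟨fun i => b.getD i false, fun K hK hn' => ?_⟩
      have := hb (List.ofFn fun i => decide (i ∈ K)) (hn _)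
      simp only [getD_ofFn, decide_eq_true_eq, Set.ofPred_mem_eq] at this
      by_contra h'
      exact this ⟨hK, hn', h'⟩
  · have e : (F ⟨x⟩).1 = false := by
      by_cases h : ∃ M : List (List Bool), bitEncode M = x
      · obtain ⟨M, rfl⟩ := h
        have := h1 M
        simp only [toRaw] at this
        rw [this]
        by_contra hv
        obtain ⟨n, G, rfl⟩ := (valid_iff M).1 (by simpa using hv)
        exact hx ⟨n, G, rfl⟩
      · rw [h2 ⟨x⟩ h]
    constructor
    · intro h
      obtain ⟨n, G, h, _⟩ := (sd2_def x).1 h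
      exact absurd ⟨n, G, h⟩ hx
    · intro h
      obtain ⟨b, _, hb⟩ := h [] (by simp)
      simpa [e] using (hb [] (by simp)).1

end Pool.Agent.Lib.MP_65ccf5_lc
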