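import Pool.Agent.Lib.MP_65ccf5_lc.Graph
import Pool.Agent.Lib.Common.CookLevin.Qbf

/-!
The reduction from layered clause lists to strong `2`-divisibility, and `Π₃ᵖ`-hardness.
-/

set_option autoImplicit false

namespace Pool.Agent.Lib.MP_65ccf5_lc

open Pool.Agent.Lib.Common.CookLevin Pool.Agent.Lib.MP_acf5a6_lc N487b59b3 Vx

open Classical in
/-- The adjacency matrix. -/
noncomputable def adjM {n : ℕ} (G : SimpleGraph (Fin n)) : List (List Bool) :=
  List.ofFn fun i => List.ofFn fun j => decide (G.Adj i j)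

theorem sd2_def (s : List Bool) : SD2 s = true ↔
    ∃ (n : ℕ) (G : SimpleGraph (Fin n)), s = bitEncode (adjM G) ∧ StronglyDivisible 2 G := by
  simp only [SD2, decide_eq_true_eq]
  rfl

theorem sd2_iff {n : ℕ} (G : SimpleGraph (Fin n)) :
    SD2 (bitEncode (adjM G)) = true ↔ StronglyDivisible 2 G := by
  rw [sd2_def]
  refine ⟨?_, fun h => ⟨n, G, rfl, h⟩⟩
  rintro ⟨n', G', e, h⟩
  have e1 := bitEncode_injective e
  obtain rfl : n = n' := by simpa [adjM] using congrArg List.length e1
  have e2 : G = G' := by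
    ext i j
    simpa using congrFun (List.ofFn_injective (congrFun (List.ofFn_injective e1) i)) j
  rwa [e2]

theorem sd2_mat {F U : Type} (names : List F) (adj : F → F → Bool) (H : SimpleGraph U) (d : F → U)
    (h : ∀ x y, adj x y = true ↔ H.Adj (d x) (d y)) :
    SD2 (bitEncode (names.map fun x => names.map (adj x))) = true ↔
      ∀ W ⊆ {u | ∃ x ∈ names, d x = u}, ∃ c, Col H W c := by
  let f : Fin names.length → U := fun i => d names[i]
  have e : (names.map fun x => names.map (adj x)) = adjM (H.comap f) := by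
    refine List.ext_getElem (by simp [adjM]) (fun i h1 h2 => ?_)
    refine List.ext_getElem (by simp [adjM]) (fun j h3 h4 => ?_)
    simp only [adjM, List.getElem_map, List.getElem_ofFn, SimpleGraph.comap_adj, f]
    rw [Bool.eq_iff_iff, h]
    simp
  have hr : Set.range f = {u | ∃ x ∈ names, d x = u} := by
    ext u
    constructor
    · rintro ⟨i, rfl⟩; exact ⟨_, List.getElem_mem _, rfl⟩
    · rintro ⟨x, hx, rfl⟩
      obtain ⟨i, hi, rfl⟩ := List.getElem_of_mem hx
      exact ⟨⟨i, hi⟩, rfl⟩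
  rw [e, sd2_iff, sd_iff, ← hr]
  constructor
  · intro hG W hW
    obtain ⟨c, hc⟩ := hG (f ⁻¹' W)
    exact col_of_comap (G := H.comap f) (f := f) (fun _ _ => Iff.rfl) hW hc
  · intro hH W
    obtain ⟨c, hc⟩ := hH (f '' W) (Set.image_subset_range _ _)
    exact ⟨_, col_comap (H := H) (f := f) (fun _ _ => Iff.rfl) hc⟩

/-- Codes of the core vertices. -/
def code : Vx → ℕ × ℕ × Clause
  | lit v b => (0, 0, [(v, b)])
  | m k => (1, k, [])
  | cl k C => (2, k, C)
  | p v => (3, 0, [(v, true)])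
  | q v => (4, 0, [(v, true)])
  | w => (5, 0, [])

theorem code_inj : Function.Injective code := by
  intro u v h
  cases u <;> cases v <;> simp_all [code]

noncomputable instance : N487b59b3 Vx :=
  ofLeftInverse code (Function.partialInv code) (Function.partialInv_left code_inj)

noncomputable instance : DecidableEq Vx := Classical.decEq _

section PT

variable {α : Type} [N487b59b3 α]

@[fun_prop] theorem code_PT {u : α → Vx} (hu : PT u) : PT (fun a => code (u a)) := hu

@[fun_prop] theorem lit_PT {v : α → Var} {b : α → Bool} (hv : PT v) (hb : PT b) :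
    PT (fun a => lit (v a) (b a)) :=
  PT.of_enc (f := fun a => ((0, 0, [(v a, b a)]) : ℕ × ℕ × Clause)) (by fun_prop) (fun _ => rfl)

@[fun_prop] theorem m_PT {k : α → ℕ} (hk : PT k) : PT (fun a => m (k a)) :=
  PT.of_enc (f := fun a => ((1, k a, []) : ℕ × ℕ × Clause)) (by fun_prop) (fun _ => rfl)

@[fun_prop] theorem cl_PT {k : α → ℕ} {C : α → Clause} (hk : PT k) (hC : PT C) :
    PT (fun a => cl (k a) (C a)) :=
  PT.of_enc (f := fun a => ((2, k a, C a) : ℕ × ℕ × Clause)) (by fun_prop) (fun _ => rfl)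

@[fun_prop] theorem p_PT {v : α → Var} (hv : PT v) : PT (fun a => p (v a)) :=
  PT.of_enc (f := fun a => ((3, 0, [(v a, true)]) : ℕ × ℕ × Clause)) (by fun_prop) (fun _ => rfl)

@[fun_prop] theorem q_PT {v : α → Var} (hv : PT v) : PT (fun a => q (v a)) :=
  PT.of_enc (f := fun a => ((4, 0, [(v a, true)]) : ℕ × ℕ × Clause)) (by fun_prop) (fun _ => rfl)

end PT

/-- The first literal of a code. -/
def hd (s : ℕ × ℕ × Clause) : Lit := s.2.2.headD (tt, true)

/-- The non-edges on codes. -/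
def nonB (L : ℕ) (s t : ℕ × ℕ × Clause) : Bool :=
  (decide (s.1 = 0) && decide (t.1 = 0) && decide ((hd s).1 = (hd t).1)) ||
  (decide (s.1 = 2) && decide (t.1 = 2)) ||
  (decide (s.1 = 0) && decide (t.1 = 2) && !t.2.2.all (fun l => !decide (l = hd s))) ||
  (decide (s.1 = 1) && decide (t.1 = 3) && decide (s.2.1 = 0)) ||
  (decide (s.1 = 1) && (decide (t.1 = 4) || decide (t.1 = 5)) && decide (s.2.1 = L))

/-- The links on codes. -/
def lkB (s t : ℕ × ℕ × Clause) : Bool :=
  (decide (s.1 = 0) && decide (t.1 = 3) && (hd s).2 && decide ((hd s).1 = (hd t).1) &&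
    decide ((hd t).1.1 = 1)) ||
  (decide (s.1 = 3) && decide (t.1 = 4) && decide ((hd s).1 = (hd t).1)) ||
  (decide (s.1 = 4) && decide (t.1 = 0) && !(hd t).2 && decide ((hd s).1 = (hd t).1) &&
    decide ((hd t).1.1 = 1)) ||
  (decide (s.1 = 5) && decide (t.1 = 1) && decide (t.2.1 = 0)) ||
  (decide (s.1 = 5) && decide (t.1 = 0) && !decide ((hd t).1.1 = 1)) ||
  (decide (s.1 = 1) && decide (t.1 = 2) && (decide (s.2.1 = t.2.1) || decide (s.2.1 = t.2.1 + 1)))

@[fun_prop] theorem nonB_PT {α : Type} [N487b59b3 α] {L : α → ℕ} {s t : α → ℕ × ℕ × Clause}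
    (hL : PT L) (hs : PT s) (ht : PT t) : PT (fun a => nonB (L a) (s a) (t a)) := by
  unfold nonB hd
  fun_prop

@[fun_prop] theorem lkB_PT {α : Type} [N487b59b3 α] {s t : α → ℕ × ℕ × Clause}
    (hs : PT s) (ht : PT t) : PT (fun a => lkB (s a) (t a)) := by
  unfold lkB hd
  fun_prop

theorem nonB_code (L : ℕ) (u v : Vx) : nonB L (code u) (code v) = true ↔ Non L u v := by
  cases u <;> cases v <;> simp [nonB, code, hd, Non]

theorem lkB_code (u v : Vx) : lkB (code u) (code v) = true ↔ Lk0 u v := by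
  cases u <;> cases v <;> simp [lkB, code, hd, Lk0, and_assoc]

/-- Decoding of vertex names. -/
def dF (x : Bool × Vx × Vx) : Vx ⊕ Vx × Vx := cond x.1 (.inr x.2) (.inl x.2.1)

/-- Adjacency of vertex names. -/
noncomputable def adjF (L : ℕ) (x y : Bool × Vx × Vx) : Bool :=
  cond x.1
    (cond y.1 (decide (x.2.1 = y.2.2) && decide (x.2.2 = y.2.1) && !decide (x.2.1 = x.2.2))
      (decide (y.2.1 = x.2.1)))
    (cond y.1 (decide (x.2.1 = y.2.1))
      (!decide (x.2.1 = y.2.1) && !nonB L (code x.2.1) (code y.2.1) &&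
        !nonB L (code y.2.1) (code x.2.1)))

theorem adjF_iff (L : ℕ) (x y : Bool × Vx × Vx) :
    adjF L x y = true ↔ (full (core L)).Adj (dF x) (dF y) := by
  obtain ⟨b, u, v⟩ := x
  obtain ⟨b', u', v'⟩ := y
  cases b <;> cases b' <;> simp [adjF, dF, full, fullAdj, core, ← nonB_code, and_assoc]

/-- The variables that occur. -/
def vars (Λ : List (List Clause)) : List Var :=
  Λ.flatMap (fun l => l.flatMap (fun C => C.map (fun x => x.1)))

/-- The core vertices. -/
def coreN (Λ : List (List Clause)) : List Vx :=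
  w :: ((urange ((ulen Λ).add ⟨1⟩)).map (fun k => m k) ++
    (Λ.zipIdx.flatMap (fun x => x.1.map (fun C => cl x.2 C)) ++
      (vars Λ).flatMap (fun v => [lit v true, lit v false, p v, q v])))

/-- All vertices. -/
def names (Λ : List (List Clause)) : List (Bool × Vx × Vx) :=
  (coreN Λ).map (fun u => (false, u, u)) ++
    (coreN Λ).flatMap (fun u => ((coreN Λ).filter
      (fun v => lkB (code u) (code v) || lkB (code v) (code u))).map (fun v => (true, u, v)))

/-- The adjacency matrix produced by the reduction. -/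
noncomputable def mat (Λ : List (List Clause)) : List (List Bool) :=
  (names Λ).map fun x => (names Λ).map (adjF Λ.length x)

theorem mat_PT : PT mat := by
  have h1 : PT coreN := by
    unfold coreN vars
    fun_prop
  have h2 : PT names := by
    unfold names
    fun_prop
  unfold mat adjF
  fun_prop

theorem mem_names (Λ : List (List Clause)) (u : Vx ⊕ Vx × Vx) :
    (∃ x ∈ names Λ, dF x = u) ↔
      u.elim (fun u => u ∈ coreN Λ) (fun e => e.1 ∈ coreN Λ ∧ e.2 ∈ coreN Λ ∧ Lk e.1 e.2) := by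
  simp only [names, List.mem_append, List.mem_map, List.mem_flatMap, List.mem_filter,
    Bool.or_eq_true, lkB_code]
  constructor
  · rintro ⟨_, ⟨u, hu, rfl⟩ | ⟨u, hu, v, ⟨hv, h⟩, rfl⟩, rfl⟩
    · exact hu
    · exact ⟨hu, hv, h⟩
  · rcases u with u | ⟨u, v⟩
    · exact fun h => ⟨_, Or.inl ⟨u, h, rfl⟩, rfl⟩
    · exact fun h => ⟨_, Or.inr ⟨u, h.1, v, ⟨h.2.1, h.2.2⟩, rfl⟩, rfl⟩

theorem cl_mem_coreN (Λ : List (List Clause)) (k : ℕ) (C : Clause) :
    cl k C ∈ coreN Λ ↔ ∃ h : k < Λ.length, C ∈ Λ[k] := by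
  simp only [coreN, List.mem_cons, reduceCtorEq, List.mem_append, List.mem_map, and_false,
    exists_false, List.mem_flatMap, cl.injEq, List.not_mem_nil, or_self, false_or, or_false]
  constructor
  · rintro ⟨⟨l, j⟩, hx, C', hC, rfl, rfl⟩
    obtain ⟨h, e⟩ := List.mem_zipIdx' hx
    exact ⟨h, e ▸ hC⟩
  · rintro ⟨h, hC⟩
    exact ⟨(Λ[k], k), List.mk_mem_zipIdx_iff_getElem?.2 (by simp [h]), C, hC, rfl, rfl⟩

theorem mat_iff {Λ : List (List Clause)} (hL : 2 ≤ Λ.length) :
    SD2 (bitEncode (mat Λ)) = true ↔ QSat Λ := by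
  rw [mat, sd2_mat _ _ _ _ (adjF_iff _)]
  constructor
  · intro h S hS
    have h1 : ∀ k, ∃ C, ∀ h : k < Λ.length, C ∈ Λ[k] ∧ S C := by
      intro k
      by_cases hk : k < Λ.length
      · obtain ⟨C, hC⟩ := hS _ (List.getElem_mem hk)
        exact ⟨C, fun _ => hC⟩
      · exact ⟨[], fun h => absurd h hk⟩
    choose sel hsel using h1
    have hK : ∀ u, Kept Λ.length sel {v | v ∈ vars Λ} u → u ∈ coreN Λ := by
      intro u hu
      cases u with
      | cl k C =>
        obtain ⟨hk, rfl⟩ := hu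
        exact (cl_mem_coreN _ _ _).2 ⟨hk, (hsel k hk).1⟩
      | lit v b =>
        have : v ∈ vars Λ := hu
        cases b <;> simp [coreN, this]
      | m k =>
        have : k ≤ Λ.length := hu
        simp [coreN, urange, Un.add, ulen, this]
      | p v => have : v ∈ vars Λ := hu.1; simp [coreN, this]
      | q v => have : v ∈ vars Λ := hu.1; simp [coreN, this]
      | w => simp [coreN]
    obtain ⟨c, hc⟩ := h {u | u.elim (Kept Λ.length sel {v | v ∈ vars Λ}) (fun e =>
        Kept Λ.length sel {v | v ∈ vars Λ} e.1 ∧ Kept Λ.length sel {v | v ∈ vars Λ} e.2 ∧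
          Lk e.1 e.2)} (by
      rintro (u | e) hu
      · exact (mem_names _ _).2 (hK u hu)
      · exact (mem_names _ _).2 ⟨hK _ hu.1, hK _ hu.2.1, hu.2.2⟩)
    obtain ⟨h2, h3⟩ := col_core hc
    obtain ⟨y, hy⟩ := core_not_col (L := Λ.length) (sel := sel) (Vs := {v | v ∈ vars Λ})
      (by omega) (fun k hk l hl => by
        simp only [vars, List.mem_flatMap, List.mem_map, Set.mem_ofPred_eq]
        exact ⟨_, List.getElem_mem hk, _, (hsel k hk).1, l, hl, rfl⟩) h2
      (fun u v hu hv h => h3 u v (fun e => colA_lk0 (fun _ => false) u v h (by rw [e])) hu hv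
        ⟨hu, hv, Or.inl h⟩ ⟨hv, hu, Or.inr h⟩)
    refine ⟨y, fun z hz => ?_⟩
    obtain ⟨k, hk, h⟩ := hy z hz
    exact ⟨_, (hsel k hk).2, h⟩
  · intro h W hW
    obtain ⟨c, hc, hl⟩ := core_col hL (Sum.inl ⁻¹' W) (fun h1 => by
      obtain ⟨y, hy⟩ := h (fun C => ∃ k, cl k C ∈ Sum.inl ⁻¹' W) (fun l hl => by
        obtain ⟨k, hk, rfl⟩ := List.getElem_of_mem hl
        obtain ⟨C, hC⟩ := h1 k hk
        obtain ⟨_, h2⟩ := (cl_mem_coreN _ _ _).1 ((mem_names _ _).1 (hW hC))
        exact ⟨C, h2, k, hC⟩)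
      refine ⟨y, fun z hz => ?_⟩
      obtain ⟨C, ⟨k, hk⟩, h⟩ := hy z hz
      exact ⟨k, C, hk, h⟩)
    exact full_col (colA_lk (fun _ => false)) (fun e he => ((mem_names _ _).1 (hW he)).2.2) hc
      (fun u v hu hv => hl u hu v hv)

/-- Symbolic form of the encoding of a list of bits. -/
def encS (l : List Lit) : List Lit := l.flatMap (fun x => [(tt, true), x, (tt, false)])

/-- Symbolic form of `delimit`. -/
def delS (l : List Lit) : List Lit := l.flatMap (fun x => [(tt, true), x]) ++ [(tt, false)]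

theorem map_encS {ρ : Var → Bool} (h : ρ tt = true) (l : List Lit) :
    (encS l).map (ev ρ) = bitEncode (l.map (ev ρ)) := by
  induction l with
  | nil => rfl
  | cons x l ih =>
    rw [List.map_cons, enc_cons, ← ih]
    simp [encS, enc_bool, delimit, ev, h]

theorem map_delS {ρ : Var → Bool} (h : ρ tt = true) (l : List Lit) :
    (delS l).map (ev ρ) = delimit (l.map (ev ρ)) := by
  induction l with
  | nil => simp [delS, delimit, ev, h]
  | cons x l ih =>
    rw [List.map_cons, delimit, ← ih]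
    simp [delS, ev, h]

theorem pi3_hard : ∀ L ∈ Pi3, N793a5b8e.ManyOneReducible L SD2 := by
  rintro L ⟨p, R, hR, hL⟩
  obtain ⟨F, hF, h2, hq⟩ := qsat_hard hR true p (fun x a b c => (x, a, b, c))
    (fun s => delS (encS s.1) ++ (delS (encS s.2.1) ++ (delS (encS s.2.2.1) ++ encS s.2.2.2)))
    (by unfold delS encS; fun_prop)
    (fun ρ h x a b c => by simp only [List.map_append, map_delS h, map_encS h, enc_pair])
  refine ⟨fun x => (toRaw (mat (F x))).s,
    PT.isPolyTime (PT.rawBits (PT.toRaw' (PT.comp mat_PT hF))), fun x => ?_⟩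
  rw [Bool.eq_iff_iff, hL, ← hq, ← mat_iff (h2 x)]
  rfl

end Pool.Agent.Lib.MP_65ccf5_lc
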