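import Pool.Agent.Lib.MP_65ccf5_lc.Mem

/-!
The graphs produced by the reduction have no hole and no antihole with five or more vertices.
-/

set_option autoImplicit false

namespace Pool.Agent.Lib.MP_65ccf5_lc

open Pool.Agent.Lib.Common.CookLevin Pool.Agent.Lib.MP_acf5a6_lc N487b59b3 Vx SimpleGraph

/-- Going round a cycle with at least five vertices. -/
theorem wc_walk (k : ℕ) (hk : 5 ≤ k) : ∃ ι : ℕ → Fin k, ∀ i,
    (cycleGraph k).Adj (ι i) (ι (i + 1)) ∧ (cycleGraph k)ᶜ.Adj (ι i) (ι (i + 2)) ∧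
      (cycleGraph k)ᶜ.Adj (ι i) (ι (i + 3)) := by
  obtain ⟨n, rfl⟩ : ∃ n, k = n + 3 + 2 := ⟨k - 5, by omega⟩
  have h : ∀ d : ℕ, 0 < d → d < 5 → d • (1 : Fin (n + 3 + 2)) ≠ 0 := fun d h0 h5 h => by
    have h1 := addOrderOf_dvd_of_nsmul_eq_zero h
    rw [show addOrderOf (1 : Fin (n + 3 + 2)) = _ from ZMod.addOrderOf_one (n + 3 + 2)] at h1
    have := Nat.le_of_dvd h0 h1
    omega
  have key : ∀ (i d : ℕ), 2 ≤ d → d ≤ 3 →
      (cycleGraph (n + 3 + 2))ᶜ.Adj (i • (1 : Fin (n + 3 + 2))) ((i + d) • 1) := fun i d h2 h3 => by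
    obtain ⟨e, rfl⟩ : ∃ e, d = e + 1 := ⟨d - 1, by omega⟩
    rw [compl_adj, cycleGraph_adj, add_nsmul, sub_add_cancel_left, add_sub_cancel_left, ne_eq,
      left_eq_add, neg_eq_iff_add_eq_zero, ← succ_nsmul, not_or]
    refine ⟨h _ (by omega) (by omega), h _ (by omega) (by omega), fun h4 => ?_⟩
    rw [succ_nsmul, add_eq_right] at h4
    exact h e (by omega) (by omega) h4
  refine ⟨fun i => i • 1, fun i => ⟨cycleGraph_adj.2 (Or.inr ?_),
    key i 2 le_rfl (by omega), key i 3 (by omega) le_rfl⟩⟩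
  simp only [succ_nsmul, add_sub_cancel_left]

variable {L : ℕ}

open Classical in
theorem wc_leaf {u a : Vx} (hu : low u = false) (hm : ∀ k, u ≠ m k)
    (h : Non L u a ∨ Non L a u) : a = m (if ∃ v, u = p v then 0 else L) := by
  cases u with
  | lit => exact absurd hu (by simp [low])
  | cl => exact absurd hu (by simp [low])
  | m k => exact absurd rfl (hm k)
  | p v => cases a <;> simp only [Non, false_or, or_self] at h; simp [h]
  | q v => cases a <;> simp only [Non, false_or, or_self] at h; simp [h]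
  | w => cases a <;> simp only [Non, false_or, or_self] at h; simp [h]

theorem wc_mid {k : ℕ} {a : Vx} (h : Non L (m k) a ∨ Non L a (m k)) :
    low a = false ∧ ∀ j, a ≠ m j := by
  cases a <;> simp only [Non, or_false, or_self] at h <;> simp [low]

/-- A sequence of core vertices, each with two different non-neighbours, one of them in the
sequence, has only literal and clause vertices. -/
theorem wc_low (y : ℕ → Vx) (h : ∀ i, ∃ a b, y a ≠ b ∧ (Non L (y i) (y a) ∨ Non L (y a) (y i)) ∧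
    (Non L (y i) b ∨ Non L b (y i))) (i : ℕ) :
    (∃ v b, y i = lit v b) ∨ ∃ k C, y i = cl k C := by
  have h1 : ∀ i, low (y i) = false → ¬ ∀ k, y i ≠ m k := fun i h4 h5 => by
    obtain ⟨a, b, h1, h2, h3⟩ := h i
    exact h1 ((wc_leaf h4 h5 h2).trans (wc_leaf h4 h5 h3).symm)
  have h2 : low (y i) = true := by
    by_contra hc
    obtain ⟨k, hk⟩ := not_forall.1 (h1 i (by simpa using hc))
    obtain ⟨a, -, -, h2, -⟩ := h i
    rw [not_not.1 hk] at h2
    exact h1 a (wc_mid h2).1 (wc_mid h2).2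
  generalize y i = u at h2
  cases u <;> simp [low] at h2 ⊢

theorem wc_core_hole (y : ℕ → Vx) (h1 : ∀ i, (core L).Adj (y i) (y (i + 1)))
    (h2 : ∀ i, ¬ (core L).Adj (y i) (y (i + 2))) (h3 : ∀ i, ¬ (core L).Adj (y i) (y (i + 3))) :
    False := by
  have d2 : ∀ i, y i ≠ y (i + 2) := fun i e => h3 i (e ▸ h1 (i + 2))
  have d3 : ∀ i, y i ≠ y (i + 3) := fun i e => h2 (i + 1) (e ▸ (h1 i).symm :
    (core L).Adj (y (i + 1)) (y (i + 3)))
  have d4 : ∀ i, y i ≠ y (i + 4) := fun i e => h3 (i + 1) (e ▸ (h1 i).symm :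
    (core L).Adj (y (i + 1)) (y (i + 4)))
  have u2 := fun i => non_of (d2 i) (h2 i)
  have u3 := fun i => non_of (d3 i) (h3 i)
  have hl := wc_low (L := L) y fun i => ⟨i + 2, y (i + 3), (h1 (i + 2)).ne, u2 i, u3 i⟩
  have hc : ∀ i, (∃ v b, y i = lit v b) ∨ ∃ v b, y (i + 1) = lit v b := fun i => by
    rcases hl i with h | ⟨k, C, h⟩
    · exact Or.inl h
    refine (hl (i + 1)).imp_right (fun ⟨k', C', h'⟩ => ?_) |>.elim Or.inr False.elim
    exact (h1 i).2.1 (by rw [h, h']; trivial)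
  have same : ∀ i j v b v' b', y i = lit v b → y j = lit v' b' →
      Non L (y i) (y j) ∨ Non L (y j) (y i) → v = v' := fun i j v b v' b' e e' h => by
    rw [e, e'] at h
    exact h.elim id Eq.symm
  have diff : ∀ i v b v' b', y i = lit v b → y (i + 1) = lit v' b' → v ≠ v' :=
    fun i v b v' b' e e' h => (h1 i).2.1 (by rw [e, e']; exact h)
  have hn : ∀ i, (∃ v b, y i = lit v b) → ¬ ∃ v b, y (i + 1) = lit v b := by
    rintro i ⟨v0, b0, e0⟩ ⟨v1, b1, e1⟩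
    have n3 : ¬ ∃ v b, y (i + 3) = lit v b := fun ⟨v, b, e⟩ => diff i _ _ _ _ e0 e1
      ((same _ _ _ _ _ _ e0 e (u3 i)).trans (same _ _ _ _ _ _ e1 e (u2 (i + 1))).symm)
    obtain ⟨v2, b2, e2⟩ := (hc (i + 2)).resolve_right n3
    obtain ⟨v4, b4, e4⟩ := (hc (i + 3)).resolve_left n3
    exact diff (i + 1) _ _ _ _ e1 e2
      ((same _ _ _ _ _ _ e1 e4 (u3 (i + 1))).trans (same _ _ _ _ _ _ e2 e4 (u2 (i + 2))).symm)
  have fin : ∀ i, ¬ ∃ v b, y i = lit v b := fun i h0 => by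
    have h4 := (hc (i + 1)).resolve_left (hn i h0)
    obtain ⟨v4, b4, e4⟩ := (hc (i + 3)).resolve_left (hn (i + 2) h4)
    obtain ⟨v0, b0, e0⟩ := h0
    obtain ⟨v2, b2, e2⟩ := h4
    obtain rfl := same _ _ _ _ _ _ e0 e2 (u2 i)
    obtain rfl := same _ _ _ _ _ _ e2 e4 (u2 (i + 2))
    have a1 : lit v0 b0 ≠ lit v0 b2 := e0 ▸ e2 ▸ d2 i
    have a2 : lit v0 b2 ≠ lit v0 b4 := e2 ▸ e4 ▸ d2 (i + 2)
    have a3 : lit v0 b0 ≠ lit v0 b4 := e0 ▸ e4 ▸ d4 i
    revert a1 a2 a3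
    cases b0 <;> cases b2 <;> cases b4 <;> simp
  exact (hc 0).elim (fin 0) (fin 1)

theorem wc_core_anti (y : ℕ → Vx) (h1 : ∀ i, ¬ (core L).Adj (y i) (y (i + 1)))
    (h2 : ∀ i, (core L).Adj (y i) (y (i + 2))) (h3 : ∀ i, (core L).Adj (y i) (y (i + 3))) :
    False := by
  have d1 : ∀ i, y i ≠ y (i + 1) := fun i e => h1 (i + 1) (e ▸ h2 i :
    (core L).Adj (y (i + 1)) (y (i + 2)))
  have u1 := fun i => non_of (d1 i) (h1 i)
  have hl := wc_low (L := L) (fun i => y (i + 1)) fun i =>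
    ⟨i + 1, y i, (h2 i).ne', u1 (i + 1), (u1 i).symm⟩
  have c2 : ∀ i j, (core L).Adj (y i) (y j) → (∃ k C, y i = cl k C) → ¬ ∃ k C, y j = cl k C := by
    rintro i j h ⟨k, C, e⟩ ⟨k', C', e'⟩
    exact h.2.1 (by rw [e, e']; trivial)
  have l3 : ∀ i, (∃ v b, y i = lit v b) → (∃ v b, y (i + 1) = lit v b) →
      ¬ ∃ v b, y (i + 2) = lit v b := by
    rintro i ⟨v0, b0, e0⟩ ⟨v1, b1, e1⟩ ⟨v2, b2, e2⟩
    have a1 := u1 i
    have a2 := u1 (i + 1)
    have a3 := (h2 i).2.1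
    rw [e0, e1] at a1
    rw [e1, e2] at a2
    rw [e0, e2] at a3
    exact a3 ((a1.elim id Eq.symm : v0 = v1).trans (a2.elim id Eq.symm : v1 = v2))
  have fin : ∀ i, ¬ ∃ k C, y (i + 1) = cl k C := fun i h0 => by
    have a2 := (hl (i + 2)).resolve_right (c2 _ _ (h2 (i + 1)) h0)
    have a3 := (hl (i + 3)).resolve_right (c2 _ _ (h3 (i + 1)) h0)
    exact c2 _ _ (h3 (i + 2)) ((hl (i + 1)).resolve_left fun h => l3 (i + 2) h a2 a3)
      ((hl (i + 4)).resolve_left (l3 (i + 3) a2 a3))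
  exact l3 1 ((hl 0).resolve_right (fin 0)) ((hl 1).resolve_right (fin 1))
    ((hl 2).resolve_right (fin 2))

theorem wc_lk (hL : L ≠ 0) {u v : Vx} (h : Lk u v) : (core L).Adj u v := by
  have key : ∀ u v, Lk0 u v → (core L).Adj u v := fun u v h => by
    cases u <;> cases v <;> simp only [Lk0] at h <;> simp [core, Non, h, hL.symm]
  exact h.elim (key u v) fun h => (key v u h).symm

section full

variable {U : Type} {H : SimpleGraph U}

theorem wc_nb {u v : U} {z : U ⊕ U × U} (h : (full H).Adj (.inr (u, v)) z) :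
    z = .inl u ∨ z = .inr (v, u) := by
  rcases z with z | ⟨a, b⟩
  · exact Or.inl (congrArg _ h)
  · obtain ⟨h1, h2, -⟩ := h
    exact Or.inr (congrArg _ (Prod.ext h2.symm h1.symm))

theorem wc_full_hole (x : ℕ → U ⊕ U × U) (hx : ∀ i e, x i = .inr e → H.Adj e.1 e.2)
    (h1 : ∀ i, (full H).Adj (x i) (x (i + 1))) (h3 : ∀ i, ¬ (full H).Adj (x i) (x (i + 3)))
    (i : ℕ) : ∃ u, x (i + 2) = .inl u := by
  have d2 : ∀ i, x i ≠ x (i + 2) := fun i e => h3 i (e ▸ h1 (i + 2))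
  rcases e : x (i + 2) with u | ⟨u, v⟩
  · exact ⟨u, rfl⟩
  exfalso
  have huv : H.Adj u v := hx _ _ e
  rcases wc_nb (e ▸ (h1 (i + 1)).symm : (full H).Adj _ (x (i + 1))) with a | a <;>
    rcases wc_nb (e ▸ h1 (i + 2) : (full H).Adj _ (x (i + 3))) with b | b
  · exact d2 (i + 1) (a.trans b.symm)
  · rcases wc_nb (b ▸ h1 (i + 3) : (full H).Adj _ (x (i + 4))) with c | c
    · exact h3 (i + 1) (by rw [a, c]; exact huv)
    · exact d2 (i + 2) (e.trans c.symm)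
  · rcases wc_nb (a ▸ (h1 i).symm : (full H).Adj _ (x i)) with c | c
    · exact h3 i (by rw [c, b]; exact huv.symm)
    · exact d2 i (c.trans e.symm)
  · exact d2 (i + 1) (a.trans b.symm)

theorem wc_full_anti (x : ℕ → U ⊕ U × U) (hx : ∀ i e, x i = .inr e → H.Adj e.1 e.2)
    (h1 : ∀ i, ¬ (full H).Adj (x i) (x (i + 1))) (h2 : ∀ i, (full H).Adj (x i) (x (i + 2)))
    (h3 : ∀ i, (full H).Adj (x i) (x (i + 3))) (i : ℕ) : ∃ u, x i = .inl u := by
  have d1 : x (i + 2) ≠ x (i + 3) := fun e => h1 (i + 3) (e ▸ h2 (i + 2) :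
    (full H).Adj (x (i + 3)) (x (i + 4)))
  rcases e : x i with u | ⟨u, v⟩
  · exact ⟨u, rfl⟩
  exfalso
  have huv : H.Adj u v := hx _ _ e
  have key : ∀ z, (full H).Adj (.inr (v, u)) z → (full H).Adj (.inl u) z := fun z h => by
    rcases wc_nb h with rfl | rfl
    · exact huv
    · exact rfl
  rcases wc_nb (e ▸ h2 i : (full H).Adj _ (x (i + 2))) with a | a <;>
    rcases wc_nb (e ▸ h3 i : (full H).Adj _ (x (i + 3))) with b | b
  · exact d1 (a.trans b.symm)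
  · exact h1 (i + 1) (a ▸ key _ (b ▸ (h2 (i + 1)).symm : (full H).Adj _ (x (i + 1))) :
      (full H).Adj (x (i + 2)) (x (i + 1))).symm
  · exact h1 (i + 3) (b ▸ key _ (a ▸ h2 (i + 2) : (full H).Adj _ (x (i + 4))) :
      (full H).Adj (x (i + 3)) (x (i + 4)))
  · exact d1 (a.trans b.symm)

end full

theorem wc_comap (hL : L ≠ 0) {V : Type} (f : V → Vx ⊕ Vx × Vx)
    (hf : ∀ a e, f a = .inr e → Lk e.1 e.2) (k : ℕ) (hk : 5 ≤ k) :
    IsEmpty (cycleGraph k ↪g (full (core L)).comap f) ∧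
      IsEmpty ((cycleGraph k)ᶜ ↪g (full (core L)).comap f) := by
  obtain ⟨ι, hι⟩ := wc_walk k hk
  refine ⟨⟨fun g => ?_⟩, ⟨fun g => ?_⟩⟩
  · have h1 : ∀ i, (full (core L)).Adj (f (g (ι i))) (f (g (ι (i + 1)))) :=
      fun i => g.map_rel_iff.2 (hι i).1
    have h2 : ∀ i, ¬ (full (core L)).Adj (f (g (ι i))) (f (g (ι (i + 2)))) :=
      fun i h => (hι i).2.1.2 (g.map_rel_iff.1 h)
    have h3 : ∀ i, ¬ (full (core L)).Adj (f (g (ι i))) (f (g (ι (i + 3)))) :=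
      fun i h => (hι i).2.2.2 (g.map_rel_iff.1 h)
    choose y hy using wc_full_hole (fun i => f (g (ι i)))
      (fun i e h => wc_lk hL (hf _ e h)) h1 h3
    refine wc_core_hole (L := L) y (fun i => ?_) (fun i h => h2 (i + 2) ?_) fun i h => h3 (i + 2) ?_
    · have := h1 (i + 2)
      rwa [hy i, hy (i + 1)] at this
    · rwa [hy i, hy (i + 2)]
    · rwa [hy i, show i + 2 + 3 = i + 3 + 2 from rfl, hy (i + 3)]
  · have h1 : ∀ i, ¬ (full (core L)).Adj (f (g (ι i))) (f (g (ι (i + 1)))) :=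
      fun i h => (g.map_rel_iff.1 h).2 (hι i).1
    have h2 : ∀ i, (full (core L)).Adj (f (g (ι i))) (f (g (ι (i + 2)))) :=
      fun i => g.map_rel_iff.2 (hι i).2.1
    have h3 : ∀ i, (full (core L)).Adj (f (g (ι i))) (f (g (ι (i + 3)))) :=
      fun i => g.map_rel_iff.2 (hι i).2.2
    choose y hy using wc_full_anti (fun i => f (g (ι i)))
      (fun i e h => wc_lk hL (hf _ e h)) h1 h2 h3
    refine wc_core_anti (L := L) y (fun i h => h1 i ?_) (fun i => ?_) fun i => ?_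
    · rwa [hy i, hy (i + 1)]
    · have := h2 i
      rwa [hy i, hy (i + 2)] at this
    · have := h3 i
      rwa [hy i, hy (i + 3)] at this

theorem wc_mat {Λ : List (List Clause)} (hL : 2 ≤ Λ.length) :
    ∃ (n : ℕ) (G : SimpleGraph (Fin n)), mat Λ = adjM G ∧ ∀ k : ℕ, 5 ≤ k →
      IsEmpty (cycleGraph k ↪g G) ∧ IsEmpty ((cycleGraph k)ᶜ ↪g G) := by
  refine ⟨(names Λ).length, (full (core Λ.length)).comap fun i => dF (names Λ)[i], ?_,
    wc_comap (by omega) _ fun a e h => ?_⟩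
  · refine List.ext_getElem (by simp [adjM, mat]) (fun i h1 h2 => ?_)
    refine List.ext_getElem (by simp [adjM, mat]) (fun j h3 h4 => ?_)
    simp only [adjM, mat, List.getElem_map, List.getElem_ofFn, SimpleGraph.comap_adj]
    rw [Bool.eq_iff_iff, adjF_iff]
    simp
  · exact ((mem_names Λ (.inr e)).1 ⟨_, List.getElem_mem _, h⟩).2.2

theorem pi3_hard_wc : ∀ A ∈ Pi3, ∃ f : List Bool → List Bool, N68a2faeb.IsPolyTime f ∧ ∀ x,
    A x = SD2 (f x) ∧ ∃ (n : ℕ) (G : SimpleGraph (Fin n)), f x = bitEncode (adjM G) ∧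
      ∀ k : ℕ, 5 ≤ k → IsEmpty (cycleGraph k ↪g G) ∧ IsEmpty ((cycleGraph k)ᶜ ↪g G) := by
  rintro A ⟨p, R, hR, hA⟩
  obtain ⟨F, hF, h2, hq⟩ := qsat_hard hR true p (fun x a b c => (x, a, b, c))
    (fun s => delS (encS s.1) ++ (delS (encS s.2.1) ++ (delS (encS s.2.2.1) ++ encS s.2.2.2)))
    (by unfold delS encS; fun_prop)
    (fun ρ h x a b c => by simp only [List.map_append, map_delS h, map_encS h, enc_pair])
  refine ⟨fun x => (toRaw (mat (F x))).s,
    PT.isPolyTime (PT.rawBits (PT.toRaw' (PT.comp mat_PT hF))), fun x => ⟨?_, ?_⟩⟩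
  · rw [Bool.eq_iff_iff, hA, ← hq, ← mat_iff (h2 x)]
    rfl
  · obtain ⟨n, G, h1, h3⟩ := wc_mat (h2 x)
    exact ⟨n, G, congrArg bitEncode h1, h3⟩

end Pool.Agent.Lib.MP_65ccf5_lc
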